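import Mathlib

set_option autoImplicit false

open MeasureTheory ProbabilityTheory
open scoped ENNReal NNReal

namespace Pool.Agent.H211Torus

variable {Ω : Type*} [MeasurableSpace Ω]

/-- bounded measurable process with continuous paths -/
structure KProc (k : ℝ → Ω → ℝ) (M : ℝ) : Prop where
  meas : Measurable (Function.uncurry k)
  cont : ∀ ω, Continuous fun t => k t ω
  bdd : ∀ t ω, |k t ω| ≤ M

/-- the additive functional -/
noncomputable def YY (k : ℝ → Ω → ℝ) (t : ℝ) (ω : Ω) : ℝ := ∫ s in (0 : ℝ)..t, k s ω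

variable {k : ℝ → Ω → ℝ} {M : ℝ}

lemma KProc.meas_t (hk : KProc k M) (t : ℝ) : Measurable (k t) :=
  hk.meas.comp measurable_prodMk_left

lemma YY_deriv (hk : KProc k M) (t : ℝ) (ω : Ω) :
    HasDerivAt (fun t => YY k t ω) (k t ω) t :=
  ((hk.cont ω).integral_hasStrictDerivAt 0 t).hasDerivAt

lemma YY_cont (hk : KProc k M) (ω : Ω) : Continuous fun t => YY k t ω :=
  continuous_iff_continuousAt.mpr fun t => (YY_deriv hk t ω).continuousAt

lemma YY_meas_t (hk : KProc k M) (t : ℝ) : Measurable (YY k t) := by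
  have h : ∀ a b : ℝ, Measurable fun ω => ∫ s in Set.Ioc a b, k s ω := by
    intro a b
    exact (hk.meas.stronglyMeasurable.integral_prod_left'
      (μ := volume.restrict (Set.Ioc a b))).measurable
  unfold YY
  simp only [intervalIntegral]
  exact (h 0 t).sub (h t 0)

lemma YY_meas (hk : KProc k M) : Measurable (Function.uncurry (YY k)) :=
  measurable_uncurry_of_continuous_of_measurable (fun ω => YY_cont hk ω) fun t => YY_meas_t hk t

lemma YY_bdd (hk : KProc k M) (t : ℝ) (ω : Ω) : |YY k t ω| ≤ M * |t| := by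
  have := intervalIntegral.norm_integral_le_of_norm_le_const (a := 0) (b := t) (C := M)
    (f := fun s => k s ω) fun s _ => by simpa using hk.bdd s ω
  simpa [YY] using this

lemma M_nonneg [Nonempty Ω] (hk : KProc k M) : 0 ≤ M :=
  (abs_nonneg _).trans (hk.bdd 0 (Classical.arbitrary Ω))

section
variable (P : Measure Ω) [IsProbabilityMeasure P]

lemma int_aux (hk : KProc k M) (Z : Ω → ℝ) (hZ : Measurable Z) (C : ℝ) (hC : ∀ ω, |Z ω| ≤ C)
    (j : ℕ) (t : ℝ) :
    Integrable (Function.uncurry fun s ω => Z ω * (k s ω * YY k s ω ^ j))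
      ((volume.restrict (Set.uIoc 0 t)).prod P) := by
  have h0 : (volume.restrict (Set.uIoc 0 t)).prod P =
      ((volume : Measure ℝ).prod P).restrict (Set.uIoc 0 t ×ˢ Set.univ) := by
    rw [← Measure.prod_restrict, Measure.restrict_univ]
  have hm : Measurable (Function.uncurry fun s ω => Z ω * (k s ω * YY k s ω ^ j)) :=
    (hZ.comp measurable_snd).mul (hk.meas.mul ((YY_meas hk).pow_const j))
  rw [h0]
  have hΩ : Nonempty Ω := by
    by_contra h
    rw [not_nonempty_iff] at h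
    have := measure_univ (μ := P)
    rw [Set.univ_eq_empty_iff.mpr h] at this
    simp at this
  have hM := M_nonneg hk
  have hC0 : 0 ≤ C := (abs_nonneg _).trans (hC (Classical.arbitrary Ω))
  refine Measure.integrableOn_of_bounded (M := C * (M * (M * |t|) ^ j)) ?_
    hm.aestronglyMeasurable ?_
  · rw [Measure.prod_prod]
    simp [Set.uIoc]
  · refine ae_restrict_of_forall_mem (measurableSet_uIoc.prod MeasurableSet.univ) ?_
    rintro ⟨s, ω⟩ ⟨hs, -⟩
    have hst : |s| ≤ |t| := by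
      simp only at hs
      rcases le_total 0 t with h | h
      · rw [Set.uIoc_of_le h] at hs
        rw [abs_of_pos hs.1, abs_of_nonneg h]
        exact hs.2
      · rw [Set.uIoc_of_ge h] at hs
        rw [abs_of_nonpos hs.2, abs_of_nonpos h]
        linarith [hs.1]
    simp only [Function.uncurry_apply_pair, Real.norm_eq_abs, abs_mul, abs_pow]
    refine mul_le_mul (hC ω) (mul_le_mul (hk.bdd s ω) ?_ (by positivity) hM) (by positivity) hC0
    exact pow_le_pow_left₀ (abs_nonneg _) ((YY_bdd hk s ω).trans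
      (mul_le_mul_of_nonneg_left hst hM)) j

lemma lemR (hk : KProc k M) (Z : Ω → ℝ) (hZ : Measurable Z) (C : ℝ) (hC : ∀ ω, |Z ω| ≤ C)
    (j : ℕ) (t : ℝ) :
    ∫ ω, Z ω * YY k t ω ^ (j + 1) ∂P =
      (j + 1) * ∫ s in (0 : ℝ)..t, ∫ ω, Z ω * (k s ω * YY k s ω ^ j) ∂P := by
  have h1 : ∀ ω, Z ω * YY k t ω ^ (j + 1) =
      (j + 1) * ∫ s in (0 : ℝ)..t, Z ω * (k s ω * YY k s ω ^ j) := by
    intro ω
    have h2 : ∫ s in (0 : ℝ)..t, ((j + 1 : ℕ) : ℝ) * YY k s ω ^ j * k s ω =
        YY k t ω ^ (j + 1) - YY k 0 ω ^ (j + 1) := by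
      refine intervalIntegral.integral_eq_sub_of_hasDerivAt
        (f := fun s => YY k s ω ^ (j + 1)) (fun s _ => ?_) ?_
      · have h : HasDerivAt (fun s => YY k s ω ^ (j + 1))
            (((j + 1 : ℕ) : ℝ) * YY k s ω ^ (j + 1 - 1) * k s ω) s :=
          (YY_deriv hk s ω).fun_pow (j + 1)
        simpa using h
      · exact ((continuous_const.mul ((YY_cont hk ω).pow j)).mul (hk.cont ω)).intervalIntegrable _ _
    have h3 : YY k 0 ω = 0 := by simp [YY]
    rw [h3, zero_pow (by omega), sub_zero] at h2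
    rw [← h2, ← intervalIntegral.integral_const_mul, ← intervalIntegral.integral_const_mul]
    refine intervalIntegral.integral_congr fun s _ => ?_
    push_cast
    ring
  simp_rw [h1]
  rw [integral_const_mul, intervalIntegral_integral_swap (int_aux P hk Z hZ C hC j t)]

lemma lemR_int (hk : KProc k M) (Z : Ω → ℝ) (hZ : Measurable Z) (C : ℝ) (hC : ∀ ω, |Z ω| ≤ C)
    (j : ℕ) (t : ℝ) :
    IntervalIntegrable (fun s => ∫ ω, Z ω * (k s ω * YY k s ω ^ j) ∂P) volume 0 t := by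
  rw [intervalIntegrable_iff]
  exact (int_aux P hk Z hZ C hC j t).integral_prod_left

end

lemma hasDeriv_exp_aux (β t s c0 c1 : ℝ) (hβ : 0 < β) :
    HasDerivAt (fun s => c0 * s + c1 * Real.exp (-β * (t - s)) / β)
      (c0 + c1 * Real.exp (-β * (t - s))) s := by
  have h1 : HasDerivAt (fun s : ℝ => -β * (t - s)) β s := by
    have := ((hasDerivAt_id s).const_sub t).const_mul (-β)
    simpa using this
  have h3 : HasDerivAt (fun s => c0 * s + c1 * Real.exp (-β * (t - s)) / β)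
      (c0 * 1 + c1 * (Real.exp (-β * (t - s)) * β) / β) s :=
    ((hasDerivAt_id s).const_mul c0).add ((h1.exp.const_mul c1).div_const β)
  convert h3 using 1
  field_simp

lemma integral_exp_aux (β t c0 c1 : ℝ) (hβ : 0 < β) :
    ∫ s in (0 : ℝ)..t, (c0 + c1 * Real.exp (-β * (t - s))) =
      c0 * t + c1 / β - c1 * Real.exp (-β * t) / β := by
  rw [intervalIntegral.integral_eq_sub_of_hasDerivAt
    (fun s _ => hasDeriv_exp_aux β t s c0 c1 hβ)]
  · simp
  · exact (by fun_prop : Continuous fun s => c0 + c1 * Real.exp (-β * (t - s))).intervalIntegrable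
      _ _

/-- bound of an integral -/
lemma bound_int (G : ℝ → ℝ) (t β c0 c1 : ℝ) (ht : 0 ≤ t) (hβ : 0 < β) (hc1 : 0 ≤ c1)
    (hG : ∀ s, 0 ≤ s → s ≤ t → |G s| ≤ c0 + c1 * Real.exp (-β * (t - s))) :
    |∫ s in (0 : ℝ)..t, G s| ≤ c0 * t + c1 / β := by
  have h1 := intervalIntegral.norm_integral_le_of_norm_le (μ := volume) (f := G) (a := 0) (b := t)
    (g := fun s => c0 + c1 * Real.exp (-β * (t - s))) ht
    (Filter.Eventually.of_forall fun s hs => by
      rw [Real.norm_eq_abs]; exact hG s hs.1.le hs.2)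
    ((by fun_prop : Continuous fun s => c0 + c1 * Real.exp (-β * (t - s))).intervalIntegrable _ _)
  rw [integral_exp_aux β t c0 c1 hβ, Real.norm_eq_abs] at h1
  have h2 : 0 ≤ c1 * Real.exp (-β * t) / β := by positivity
  linarith

section
variable (P : Measure Ω) [IsProbabilityMeasure P]

/-- fourth moment -/
lemma fourth (hk : KProc k M) (a0 a1 α β : ℝ) (ha0 : 0 ≤ a0) (ha1 : 0 ≤ a1) (hα : 0 < α)
    (hβ : 0 < β)
    (H : ∀ t1 t2 t3 t4 : ℝ, 0 ≤ t1 → t1 ≤ t2 → t2 ≤ t3 → t3 ≤ t4 →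
      |∫ ω, k t4 ω * k t3 ω * k t2 ω * k t1 ω ∂P| ≤
        (a0 + a1 * Real.exp (-β * (t3 - t2))) * Real.exp (-α * (t2 - t1)) *
          Real.exp (-α * (t4 - t3)))
    (T : ℝ) (hT : 0 ≤ T) :
    ∫ ω, YY k T ω ^ 4 ∂P ≤ 24 / α ^ 2 * T * (a0 * T + a1 / β) := by
  have hM0 : ∀ (t : ℝ) ω, |k t ω| ≤ |M| := fun t ω => (hk.bdd t ω).trans (le_abs_self M)
  -- level 1
  have s1 : ∀ t2 t3 t4 : ℝ, 0 ≤ t2 → t2 ≤ t3 → t3 ≤ t4 →
      |∫ ω, k t4 ω * k t3 ω * k t2 ω * YY k t2 ω ^ (0 + 1) ∂P| ≤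
        (a0 + a1 * Real.exp (-β * (t3 - t2))) / α * Real.exp (-α * (t4 - t3)) := by
    intro t2 t3 t4 h2 h23 h34
    rw [lemR P hk (fun ω => k t4 ω * k t3 ω * k t2 ω)
      (((hk.meas_t t4).mul (hk.meas_t t3)).mul (hk.meas_t t2)) (|M| * |M| * |M|)
      (fun ω => by
        rw [abs_mul, abs_mul]
        exact mul_le_mul (mul_le_mul (hM0 _ _) (hM0 _ _) (abs_nonneg _) (abs_nonneg _))
          (hM0 _ _) (abs_nonneg _) (by positivity))]
    simp only [Nat.cast_zero, zero_add, one_mul, pow_zero, mul_one]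
    have := bound_int (fun s => ∫ ω, k t4 ω * k t3 ω * k t2 ω * k s ω ∂P) t2 α 0
      ((a0 + a1 * Real.exp (-β * (t3 - t2))) * Real.exp (-α * (t4 - t3))) h2 hα (by positivity)
      (fun s hs hs2 => by
        refine (H s t2 t3 t4 hs hs2 h23 h34).trans_eq ?_
        ring)
    refine this.trans_eq ?_
    ring
  -- level 2
  have s2 : ∀ t3 t4 : ℝ, 0 ≤ t3 → t3 ≤ T → t3 ≤ t4 →
      |∫ ω, k t4 ω * k t3 ω * YY k t3 ω ^ (1 + 1) ∂P| ≤
        2 * ((a0 * T + a1 / β) / α) * Real.exp (-α * (t4 - t3)) := by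
    intro t3 t4 h3 h3T h34
    rw [lemR P hk (fun ω => k t4 ω * k t3 ω)
      ((hk.meas_t t4).mul (hk.meas_t t3)) (|M| * |M|)
      (fun ω => by
        rw [abs_mul]
        exact mul_le_mul (hM0 _ _) (hM0 _ _) (abs_nonneg _) (abs_nonneg _))]
    have := bound_int (fun s => ∫ ω, k t4 ω * k t3 ω * (k s ω * YY k s ω ^ 1) ∂P) t3 β
      (a0 / α * Real.exp (-α * (t4 - t3))) (a1 / α * Real.exp (-α * (t4 - t3))) h3 hβ
      (by positivity)
      (fun s hs hs2 => by
        have := s1 s t3 t4 hs hs2 h34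
        simp only [zero_add, pow_one] at this ⊢
        have e : ∀ ω, k t4 ω * k t3 ω * (k s ω * YY k s ω) =
          k t4 ω * k t3 ω * k s ω * YY k s ω := fun ω => by ring
        simp_rw [e]
        refine this.trans_eq ?_
        ring)
    rw [abs_mul]
    have h5 : |((1 : ℕ) : ℝ) + 1| = 2 := by norm_num
    rw [h5]
    have h6 : a0 / α * Real.exp (-α * (t4 - t3)) * t3 + a1 / α * Real.exp (-α * (t4 - t3)) / β ≤
        (a0 * T + a1 / β) / α * Real.exp (-α * (t4 - t3)) := by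
      have h7 : a0 / α * Real.exp (-α * (t4 - t3)) * t3 ≤
          a0 / α * Real.exp (-α * (t4 - t3)) * T :=
        mul_le_mul_of_nonneg_left h3T (by positivity)
      refine (add_le_add_left h7 _).trans_eq ?_
      ring
    calc 2 * |∫ s in (0 : ℝ)..t3, ∫ ω, k t4 ω * k t3 ω * (k s ω * YY k s ω ^ 1) ∂P|
        ≤ 2 * ((a0 * T + a1 / β) / α * Real.exp (-α * (t4 - t3))) :=
          mul_le_mul_of_nonneg_left (this.trans h6) (by norm_num)
      _ = _ := by ring
  -- level 3
  have s3 : ∀ t4 : ℝ, 0 ≤ t4 → t4 ≤ T →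
      |∫ ω, k t4 ω * YY k t4 ω ^ (2 + 1) ∂P| ≤ 6 * ((a0 * T + a1 / β) / α ^ 2) := by
    intro t4 h4 h4T
    rw [lemR P hk (fun ω => k t4 ω) (hk.meas_t t4) |M| (fun ω => hM0 _ _)]
    have := bound_int (fun s => ∫ ω, k t4 ω * (k s ω * YY k s ω ^ 2) ∂P) t4 α
      0 (2 * ((a0 * T + a1 / β) / α)) h4 hα
      (by positivity)
      (fun s hs hs2 => by
        have := s2 s t4 hs (hs2.trans h4T) hs2
        have e : ∀ ω, k t4 ω * (k s ω * YY k s ω ^ 2) =
          k t4 ω * k s ω * YY k s ω ^ (1 + 1) := fun ω => by ring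
        simp_rw [e]
        rw [zero_add]
        exact this)
    rw [abs_mul]
    have h5 : |((2 : ℕ) : ℝ) + 1| = 3 := by norm_num
    rw [h5]
    calc 3 * |∫ s in (0 : ℝ)..t4, ∫ ω, k t4 ω * (k s ω * YY k s ω ^ 2) ∂P|
        ≤ 3 * (0 * t4 + 2 * ((a0 * T + a1 / β) / α) / α) :=
          mul_le_mul_of_nonneg_left this (by norm_num)
      _ = _ := by
        rw [zero_mul, zero_add]
        field_simp
        ring
  -- level 4
  rw [show (∫ ω, YY k T ω ^ 4 ∂P) = ∫ ω, 1 * YY k T ω ^ (3 + 1) ∂P by simp]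
  rw [lemR P hk (fun _ => 1) measurable_const 1 (fun _ => by simp)]
  have := bound_int (fun s => ∫ ω, 1 * (k s ω * YY k s ω ^ 3) ∂P) T 1
    (6 * ((a0 * T + a1 / β) / α ^ 2)) 0 hT one_pos le_rfl
    (fun s hs hs2 => by
      simp only [one_mul, zero_mul, add_zero]
      exact s3 s hs hs2)
  have h8 := (le_abs_self _).trans this
  calc (((3 : ℕ) : ℝ) + 1) * ∫ s in (0 : ℝ)..T, ∫ ω, 1 * (k s ω * YY k s ω ^ 3) ∂P
      ≤ (((3 : ℕ) : ℝ) + 1) * (6 * ((a0 * T + a1 / β) / α ^ 2) * T + 0 / 1) :=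
        mul_le_mul_of_nonneg_left h8 (by norm_num)
    _ = _ := by
      push_cast
      ring

/-- second moment -/
lemma second (hk : KProc k M) (a lam : ℝ) (ha : 0 ≤ a) (hlam : 0 < lam)
    (H : ∀ s t : ℝ, 0 ≤ s → s ≤ t →
      a * Real.exp (-lam * (t - s)) ≤ ∫ ω, k t ω * k s ω ∂P)
    (T : ℝ) (hT : 0 ≤ T) :
    2 * a / lam * (T - 1 / lam) ≤ ∫ ω, YY k T ω ^ 2 ∂P := by
  have hM0 : ∀ (t : ℝ) ω, |k t ω| ≤ |M| := fun t ω => (hk.bdd t ω).trans (le_abs_self M)
  have s1 : ∀ t : ℝ, 0 ≤ t →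
      a / lam + (-(a / lam)) * Real.exp (-lam * t) ≤ ∫ ω, k t ω * YY k t ω ^ (0 + 1) ∂P := by
    intro t ht
    rw [lemR P hk (fun ω => k t ω) (hk.meas_t t) |M| (fun ω => hM0 _ _)]
    simp only [Nat.cast_zero, zero_add, one_mul]
    have h1 := intervalIntegral.integral_mono_on ht
      (f := fun s => (0 : ℝ) + a * Real.exp (-lam * (t - s)))
      (g := fun s => ∫ ω, k t ω * (k s ω * YY k s ω ^ 0) ∂P)
      ((by fun_prop : Continuous fun s => (0 : ℝ) + a * Real.exp (-lam * (t - s))).intervalIntegrable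
        _ _)
      (lemR_int P hk (fun ω => k t ω) (hk.meas_t t) |M| (fun ω => hM0 _ _) 0 t)
      (fun s hs => by
        simp only [pow_zero, mul_one, zero_add]
        exact H s t hs.1 hs.2)
    rw [integral_exp_aux lam t 0 a hlam] at h1
    refine le_trans (le_of_eq ?_) h1
    ring
  rw [show (∫ ω, YY k T ω ^ 2 ∂P) = ∫ ω, 1 * YY k T ω ^ (1 + 1) ∂P by simp]
  rw [lemR P hk (fun _ => 1) measurable_const 1 (fun _ => by simp)]
  have h2 := intervalIntegral.integral_mono_on hT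
      (f := fun s => a / lam + (-(a / lam)) * Real.exp (-lam * (s - 0)))
      (g := fun s => ∫ ω, 1 * (k s ω * YY k s ω ^ 1) ∂P)
      ((by fun_prop : Continuous fun s =>
        a / lam + (-(a / lam)) * Real.exp (-lam * (s - 0))).intervalIntegrable _ _)
      (lemR_int P hk (fun _ => 1) measurable_const 1 (fun _ => by simp) 1 T)
      (fun s hs => by
        simp only [one_mul, sub_zero]
        exact s1 s hs.1)
  have h3 : ∫ s in (0 : ℝ)..T, (a / lam + (-(a / lam)) * Real.exp (-lam * (s - 0))) =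
      a / lam * T - a / lam * (1 - Real.exp (-lam * T)) / lam := by
    rw [intervalIntegral.integral_eq_sub_of_hasDerivAt
      (f := fun s => a / lam * s + a / lam * Real.exp (-lam * s) / lam)]
    · simp
      ring
    · intro s _
      have h4 : HasDerivAt (fun s : ℝ => -lam * s) (-lam) s := by
        simpa using (hasDerivAt_id s).const_mul (-lam)
      have h5 : HasDerivAt (fun s => a / lam * s + a / lam * Real.exp (-lam * s) / lam)
          (a / lam * 1 + a / lam * (Real.exp (-lam * s) * -lam) / lam) s :=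
        ((hasDerivAt_id s).const_mul (a / lam)).add ((h4.exp.const_mul (a / lam)).div_const lam)
      have h6 : a / lam * 1 + a / lam * (Real.exp (-lam * s) * -lam) / lam =
          a / lam + (-(a / lam)) * Real.exp (-lam * (s - 0)) := by
        rw [sub_zero]
        field_simp
      rw [h6] at h5
      exact h5
    · exact (by fun_prop : Continuous fun s =>
        a / lam + (-(a / lam)) * Real.exp (-lam * (s - 0))).intervalIntegrable _ _
  rw [h3] at h2
  have h6 : 0 ≤ a / lam * Real.exp (-lam * T) / lam := by positivity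
  have h7 : a / lam * T - a / lam / lam ≤
      ∫ s in (0 : ℝ)..T, ∫ ω, 1 * (k s ω * YY k s ω ^ 1) ∂P := by
    refine le_trans ?_ h2
    have : a / lam * T - a / lam * (1 - Real.exp (-lam * T)) / lam =
      a / lam * T - a / lam / lam + a / lam * Real.exp (-lam * T) / lam := by ring
    rw [this]
    linarith
  calc 2 * a / lam * (T - 1 / lam) = (((1 : ℕ) : ℝ) + 1) * (a / lam * T - a / lam / lam) := by
        push_cast
        field_simp
        ring
    _ ≤ _ := mul_le_mul_of_nonneg_left h7 (by norm_num)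

/-- lower bound of the first absolute moment -/
lemma first_abs (Y : Ω → ℝ) (hY : Measurable Y) (C : ℝ) (hC : ∀ ω, |Y ω| ≤ C) (A B : ℝ)
    (hA : 0 < A) (hB : 0 < B) (h2 : A ≤ ∫ ω, Y ω ^ 2 ∂P) (h4 : ∫ ω, Y ω ^ 4 ∂P ≤ B) :
    A / (2 * Real.sqrt (2 * B / A)) ≤ ∫ ω, |Y ω| ∂P := by
  set l := Real.sqrt (2 * B / A) with hl
  have hl0 : 0 < l := Real.sqrt_pos.mpr (by positivity)
  have hl2 : l ^ 2 = 2 * B / A := Real.sq_sqrt (by positivity)
  have hpt : ∀ y : ℝ, y ^ 2 / l - y ^ 4 / l ^ 3 ≤ |y| := by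
    intro y
    have h1 : y ^ 2 / l - y ^ 4 / l ^ 3 = |y| * ((|y| / l) - (|y| / l) ^ 3) := by
      have e2 : y ^ 2 = |y| ^ 2 := (sq_abs y).symm
      have e4 : y ^ 4 = |y| ^ 4 := by
        rw [show y ^ 4 = (y ^ 2) ^ 2 by ring, e2]; ring
      rw [e2, e4]
      field_simp
    rw [h1]
    refine mul_le_of_le_one_right (abs_nonneg _) ?_
    have hu : 0 ≤ |y| / l := by positivity
    nlinarith [sq_nonneg (|y| / l - 1), sq_nonneg (|y| / l), mul_nonneg hu (sq_nonneg (|y| / l - 1)),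
      pow_nonneg hu 3]
  have i1 : ∀ n : ℕ, Integrable (fun ω => Y ω ^ n) P := by
    intro n
    refine Integrable.of_bound (hY.pow_const n).aestronglyMeasurable (|C| ^ n)
      (Filter.Eventually.of_forall fun ω => ?_)
    rw [norm_pow, Real.norm_eq_abs]
    exact pow_le_pow_left₀ (abs_nonneg _) ((hC ω).trans (le_abs_self C)) n
  have i2 : Integrable (fun ω => |Y ω|) P := by
    have := (i1 1).norm
    simpa using this
  have h5 : ∫ ω, (Y ω ^ 2 / l - Y ω ^ 4 / l ^ 3) ∂P ≤ ∫ ω, |Y ω| ∂P :=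
    integral_mono (((i1 2).div_const l).sub ((i1 4).div_const (l ^ 3))) i2 fun ω => hpt (Y ω)
  rw [integral_sub ((i1 2).div_const l) ((i1 4).div_const (l ^ 3)), integral_div, integral_div] at h5
  have h6 : A / l ≤ (∫ ω, Y ω ^ 2 ∂P) / l := div_le_div_of_nonneg_right h2 hl0.le
  have h7 : (∫ ω, Y ω ^ 4 ∂P) / l ^ 3 ≤ B / l ^ 3 := div_le_div_of_nonneg_right h4 (by positivity)
  have h8 : B / l ^ 3 = A / (2 * l) := by
    have : B = A * l ^ 2 / 2 := by rw [hl2]; field_simp
    rw [this]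
    field_simp
  have h9 : A / (2 * l) = A / l - A / (2 * l) := by
    field_simp
    ring
  linarith

end

end Pool.Agent.H211Torus
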