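import Pool.Agent.H211Torus.Fourier

set_option autoImplicit false

open MeasureTheory ProbabilityTheory
open scoped ENNReal NNReal ComplexConjugate

namespace Pool.Agent.H211Torus

variable {Ω : Type*} [MeasurableSpace Ω] {P : Measure Ω} {X : ℝ≥0 → Ω → Fin 3 → ℝ}

/-- Brownian motion on the torus, indexed by real times -/
noncomputable def Bt (X : ℝ≥0 → Ω → Fin 3 → ℝ) (t : ℝ) (ω : Ω) : T3 := proj (X t.toNNReal ω)

lemma continuous_proj : Continuous proj :=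
  continuous_pi fun i => (AddCircle.continuous_mk' (1 : ℝ)).comp (continuous_apply i)

lemma proj_add (x y : Fin 3 → ℝ) : proj (x + y) = proj x + proj y := by
  funext i
  simp [proj]

lemma Bt_cont (h : IsStationaryBM P X) (ω : Ω) : Continuous fun t => Bt X t ω :=
  continuous_proj.comp ((h.cont ω).comp continuous_real_toNNReal)

lemma Bt_meas_t (h : IsStationaryBM P X) (t : ℝ) : Measurable (Bt X t) :=
  continuous_proj.measurable.comp (h.meas _)

lemma Bt_meas (h : IsStationaryBM P X) : Measurable (Function.uncurry (Bt X)) := by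
  have h1 : Measurable (Function.uncurry fun (t : ℝ) ω => X t.toNNReal ω) :=
    measurable_uncurry_of_continuous_of_measurable
      (fun ω => (h.cont ω).comp continuous_real_toNNReal) fun t => h.meas _
  exact continuous_proj.measurable.comp h1

/-- the squared length of a frequency -/
def q2 (m : Fin 3 → ℤ) : ℝ := ∑ i, (m i : ℝ) ^ 2

/-- functions of the past -/
def Past (X : ℝ≥0 → Ω → Fin 3 → ℝ) (s : ℝ≥0) (Z : Ω → ℂ) : Prop :=
  ∃ z : (Set.Iic s → Fin 3 → ℝ) → ℂ, Measurable z ∧ ∀ ω, Z ω = z fun r => X r ω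

lemma Past.mul {s : ℝ≥0} {Z W : Ω → ℂ} (hZ : Past X s Z) (hW : Past X s W) :
    Past X s fun ω => Z ω * W ω := by
  obtain ⟨z, hz, hz'⟩ := hZ
  obtain ⟨w, hw, hw'⟩ := hW
  exact ⟨fun p => z p * w p, hz.mul hw, fun ω => by simp only [hz', hw']⟩

lemma Past.const (s : ℝ≥0) (c : ℂ) : Past X s fun _ => c :=
  ⟨fun _ => c, measurable_const, fun _ => rfl⟩

lemma Past.chi {s : ℝ≥0} (r : ℝ) (hr : r.toNNReal ≤ s) (m : Fin 3 → ℤ) :
    Past X s fun ω => ch m (Bt X r ω) := by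
  refine ⟨fun p => ch m (proj (p ⟨r.toNNReal, hr⟩)), ?_, fun ω => rfl⟩
  exact (continuous_ch m).measurable.comp (continuous_proj.measurable.comp
    (measurable_pi_apply _))

lemma past_meas (h : IsStationaryBM P X) {s : ℝ≥0} {Z : Ω → ℂ} (hZ : Past X s Z) :
    Measurable Z := by
  obtain ⟨z, hz, hz'⟩ := hZ
  have : Z = z ∘ fun ω (r : Set.Iic s) => X r ω := funext hz'
  rw [this]
  exact hz.comp (measurable_pi_lambda _ fun r => h.meas r)

lemma integral_gauss (v : ℝ≥0) (m : Fin 3 → ℤ) :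
    ∫ w : Fin 3 → ℝ, ch m (proj w) ∂(Measure.pi fun _ : Fin 3 => gaussianReal 0 v) =
      (Real.exp (-(2 * Real.pi ^ 2) * q2 m * v) : ℂ) := by
  have h1 : ∀ w : Fin 3 → ℝ, ch m (proj w) =
      ∏ i, Complex.exp (((2 * Real.pi * m i : ℝ) : ℂ) * (w i : ℂ) * Complex.I) := by
    intro w
    rw [ch_proj, ← Complex.exp_sum]
    congr 1
    push_cast
    rw [Finset.mul_sum, Finset.sum_mul]
    refine Finset.sum_congr rfl fun i _ => ?_
    ring
  simp_rw [h1]
  rw [MeasureTheory.integral_fintype_prod_eq_prod (𝕜 := ℂ) (ι := Fin 3) (E := fun _ => ℝ)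
    (fun i (x : ℝ) => Complex.exp (((2 * Real.pi * m i : ℝ) : ℂ) * (x : ℂ) * Complex.I))]
  have h2 : ∀ i : Fin 3, ∫ x : ℝ, Complex.exp (((2 * Real.pi * m i : ℝ) : ℂ) * (x : ℂ) * Complex.I)
      ∂(gaussianReal 0 v) = Complex.exp (((-(2 * Real.pi ^ 2) * (m i : ℝ) ^ 2 * v : ℝ)) : ℂ) := by
    intro i
    have h3 := charFun_gaussianReal (μ := 0) (v := v) (2 * Real.pi * m i : ℝ)
    rw [charFun_apply_real] at h3
    rw [h3]
    congr 1
    push_cast
    ring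
  simp_rw [h2]
  rw [← Complex.exp_sum, Complex.ofReal_exp]
  congr 1
  rw [← Complex.ofReal_sum]
  congr 1
  unfold q2
  rw [Finset.mul_sum, Finset.sum_mul]

variable [IsProbabilityMeasure P]

/-- the Markov property for characters -/
lemma peel (h : IsStationaryBM P X) (s t : ℝ) (hs : 0 ≤ s) (hst : s ≤ t) (Z : Ω → ℂ)
    (hZ : Past X s.toNNReal Z) (m : Fin 3 → ℤ) :
    ∫ ω, Z ω * ch m (Bt X t ω) ∂P =
      (Real.exp (-(2 * Real.pi ^ 2) * q2 m * (t - s)) : ℂ) * ∫ ω, Z ω * ch m (Bt X s ω) ∂P := by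
  have hst' : s.toNNReal ≤ t.toNNReal := Real.toNNReal_le_toNNReal hst
  have h1 : ∀ ω, Z ω * ch m (Bt X t ω) = (Z ω * ch m (Bt X s ω)) *
      ch m (proj (X t.toNNReal ω - X s.toNNReal ω)) := by
    intro ω
    have : Bt X t ω = Bt X s ω + proj (X t.toNNReal ω - X s.toNNReal ω) := by
      unfold Bt
      rw [← proj_add]
      congr 1
      abel
    rw [this, ch_add_arg]
    ring
  simp_rw [h1]
  have hZ' : Past X s.toNNReal fun ω => Z ω * ch m (Bt X s ω) := hZ.mul (Past.chi s le_rfl m)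
  have hm1 := past_meas h hZ'
  obtain ⟨z, hz, hz'⟩ := hZ'
  have hg : Measurable fun w : Fin 3 → ℝ => ch m (proj w) :=
    (continuous_ch m).measurable.comp continuous_proj.measurable
  have hind : IndepFun (fun ω => Z ω * ch m (Bt X s ω))
      (fun ω => ch m (proj (X t.toNNReal ω - X s.toNNReal ω))) P := by
    have := (h.indep _ _ hst').comp hz hg
    have e : (fun ω => Z ω * ch m (Bt X s ω)) =
      z ∘ fun ω (r : Set.Iic s.toNNReal) => X r ω := funext hz'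
    rw [e]
    exact this
  have hd : Measurable fun ω => X t.toNNReal ω - X s.toNNReal ω := (h.meas _).sub (h.meas _)
  rw [hind.integral_fun_mul_eq_mul_integral hm1.aestronglyMeasurable
    (hg.comp hd).aestronglyMeasurable]
  have h2 : ∫ ω, ch m (proj (X t.toNNReal ω - X s.toNNReal ω)) ∂P =
      (Real.exp (-(2 * Real.pi ^ 2) * q2 m * (t - s)) : ℂ) := by
    have h3 := integral_map (μ := P) hd.aemeasurable
      (f := fun w : Fin 3 → ℝ => ch m (proj w)) hg.aestronglyMeasurable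
    rw [h.law_incr _ _ hst', integral_gauss] at h3
    rw [← h3]
    congr 3
    rw [NNReal.coe_sub hst', Real.coe_toNNReal _ hs, Real.coe_toNNReal _ (hs.trans hst)]
  rw [h2, mul_comm]

lemma integral_ch_Bt (h : IsStationaryBM P X) (s : ℝ) (hs : 0 ≤ s) (m : Fin 3 → ℤ) :
    ∫ ω, ch m (Bt X s ω) ∂P = if m = 0 then 1 else 0 := by
  have h1 := peel h 0 s le_rfl hs (fun _ => 1) (Past.const _ _) m
  simp only [one_mul] at h1
  rw [h1]
  have h2 : ∫ ω, ch m (Bt X 0 ω) ∂P = if m = 0 then 1 else 0 := by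
    have h3 := integral_map (μ := P) (Bt_meas_t h 0).aemeasurable
      (f := ch m) (continuous_ch m).aestronglyMeasurable
    have h4 : P.map (Bt X 0) = volume := by
      have := h.law_zero
      unfold Bt
      rwa [Real.toNNReal_zero]
    rw [h4, integral_ch] at h3
    exact h3.symm
  rw [h2]
  split_ifs with h0
  · subst h0
    simp [q2]
  · simp

/-- two-time correlations -/
lemma corr2 (h : IsStationaryBM P X) (y : T3) (m n : Fin 3 → ℤ) (s t : ℝ) (hs : 0 ≤ s)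
    (hst : s ≤ t) :
    ∫ ω, ch m (Bt X t ω - y) * ch n (Bt X s ω - y) ∂P =
      if m + n = 0 then (Real.exp (-(2 * Real.pi ^ 2) * q2 m * (t - s)) : ℂ) else 0 := by
  have h1 : ∀ ω, ch m (Bt X t ω - y) * ch n (Bt X s ω - y) =
      conj (ch (m + n) y) * (ch n (Bt X s ω) * ch m (Bt X t ω)) := by
    intro ω
    rw [ch_sub_arg, ch_sub_arg, ch_add, map_mul]
    ring
  simp_rw [h1]
  rw [integral_const_mul, peel h s t hs hst _ (Past.chi s le_rfl n) m]
  have h2 : ∀ ω, ch n (Bt X s ω) * ch m (Bt X s ω) = ch (m + n) (Bt X s ω) := by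
    intro ω
    rw [ch_add]; ring
  simp_rw [h2]
  rw [integral_ch_Bt h s hs]
  split_ifs with h0
  · rw [h0, ch_zero]
    simp
  · simp

/-- four-time correlations -/
lemma corr4 (h : IsStationaryBM P X) (y : T3) (m1 m2 m3 m4 : Fin 3 → ℤ) (t1 t2 t3 t4 : ℝ)
    (h1 : 0 ≤ t1) (h12 : t1 ≤ t2) (h23 : t2 ≤ t3) (h34 : t3 ≤ t4) :
    ‖∫ ω, ch m4 (Bt X t4 ω - y) * ch m3 (Bt X t3 ω - y) * ch m2 (Bt X t2 ω - y) *
      ch m1 (Bt X t1 ω - y) ∂P‖ =
      if m1 + m2 + m3 + m4 = 0 then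
        Real.exp (-(2 * Real.pi ^ 2) * q2 m4 * (t4 - t3)) *
        Real.exp (-(2 * Real.pi ^ 2) * q2 (m3 + m4) * (t3 - t2)) *
        Real.exp (-(2 * Real.pi ^ 2) * q2 (m2 + m3 + m4) * (t2 - t1)) else 0 := by
  have hh2 : 0 ≤ t2 := h1.trans h12
  have hh3 : 0 ≤ t3 := hh2.trans h23
  have e1 : ∀ ω, ch m4 (Bt X t4 ω - y) * ch m3 (Bt X t3 ω - y) * ch m2 (Bt X t2 ω - y) *
      ch m1 (Bt X t1 ω - y) = conj (ch (m1 + m2 + m3 + m4) y) *
        ((ch m1 (Bt X t1 ω) * ch m2 (Bt X t2 ω) * ch m3 (Bt X t3 ω)) * ch m4 (Bt X t4 ω)) := by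
    intro ω
    rw [ch_sub_arg, ch_sub_arg, ch_sub_arg, ch_sub_arg, ch_add, ch_add, ch_add, map_mul, map_mul,
      map_mul]
    ring
  simp_rw [e1]
  have p3 : ∀ r : ℝ, r ≤ t3 → r.toNNReal ≤ t3.toNNReal := fun r hr => Real.toNNReal_le_toNNReal hr
  have p2 : ∀ r : ℝ, r ≤ t2 → r.toNNReal ≤ t2.toNNReal := fun r hr => Real.toNNReal_le_toNNReal hr
  have p1 : ∀ r : ℝ, r ≤ t1 → r.toNNReal ≤ t1.toNNReal := fun r hr => Real.toNNReal_le_toNNReal hr
  rw [integral_const_mul, peel h t3 t4 hh3 h34 _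
    (((Past.chi t1 (p3 _ (h12.trans h23)) m1).mul (Past.chi t2 (p3 _ h23) m2)).mul
      (Past.chi t3 le_rfl m3)) m4]
  have e2 : ∀ ω, ch m1 (Bt X t1 ω) * ch m2 (Bt X t2 ω) * ch m3 (Bt X t3 ω) * ch m4 (Bt X t3 ω) =
      (ch m1 (Bt X t1 ω) * ch m2 (Bt X t2 ω)) * ch (m3 + m4) (Bt X t3 ω) := by
    intro ω
    rw [ch_add]; ring
  simp_rw [e2]
  rw [peel h t2 t3 hh2 h23 _ ((Past.chi t1 (p2 _ h12) m1).mul (Past.chi t2 le_rfl m2)) (m3 + m4)]
  have e3 : ∀ ω, ch m1 (Bt X t1 ω) * ch m2 (Bt X t2 ω) * ch (m3 + m4) (Bt X t2 ω) =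
      ch m1 (Bt X t1 ω) * ch (m2 + m3 + m4) (Bt X t2 ω) := by
    intro ω
    rw [add_assoc m2 m3 m4, ch_add m2 (m3 + m4)]
    ring
  simp_rw [e3]
  rw [peel h t1 t2 h1 h12 _ (Past.chi t1 le_rfl m1) (m2 + m3 + m4)]
  have e4 : ∀ ω, ch m1 (Bt X t1 ω) * ch (m2 + m3 + m4) (Bt X t1 ω) =
      ch (m1 + m2 + m3 + m4) (Bt X t1 ω) := by
    intro ω
    rw [← ch_add]
    congr 1
    abel
  simp_rw [e4]
  rw [integral_ch_Bt h t1 h1, norm_mul, norm_mul, norm_mul, norm_mul, RCLike.norm_conj, norm_ch,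
    one_mul]
  have hn : ∀ a : ℝ, ‖(Real.exp a : ℂ)‖ = Real.exp a := by
    intro a
    rw [Complex.norm_real, Real.norm_eq_abs, abs_of_pos (Real.exp_pos a)]
  split_ifs with h0
  · simp only [norm_one, mul_one]
    have hc : ∀ a b c : ℝ, (((a * b * (c : ℝ)) : ℝ)) = a * b * c := fun _ _ _ => rfl
    rw [show ((Real.exp (-(2 * Real.pi ^ 2) * q2 m4 * (t4 - t3)) : ℝ) : ℂ) =
      ((Real.exp (-(2 * Real.pi ^ 2) * q2 m4 * (t4 - t3)) : ℝ) : ℂ) from rfl, hn, hn, hn]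
    ring
  · simp

end Pool.Agent.H211Torus
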