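import Pool.Agent.H211Torus.Kernel

set_option autoImplicit false

open MeasureTheory ProbabilityTheory
open scoped ENNReal NNReal ComplexConjugate

namespace Pool.Agent.H211Torus

/-- index set of the terms of the kernel -/
abbrev Idx (N : ℕ) := Lam N × Lam N × Bool

/-- frequency of a term -/
def phi {N : ℕ} (ι : Idx N) : Fin 3 → ℤ :=
  fr ι.1 - fr ι.2.1 + (if ι.2.2 then sh N else -sh N)

lemma card_Idx (N : ℕ) : (Fintype.card (Idx N) : ℝ) = 2 * (N : ℝ) ^ 6 := by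
  simp
  ring

lemma KK_expand (N : ℕ) (x : T3) :
    ((KK N x : ℝ) : ℂ) = 1 / (2 * (N : ℂ) ^ 3) * ∑ ι : Idx N, ch (phi ι) x := by
  have h1 : ((FF N x : ℝ) : ℂ) = (∑ a : Lam N, ∑ b : Lam N, ch (fr a - fr b) x) / (N : ℂ) ^ 3 := by
    unfold FF
    rw [Complex.ofReal_div, sq_norm_eq]
    unfold pp
    rw [map_sum, Finset.sum_mul_sum]
    push_cast
    congr 1
    refine Finset.sum_congr rfl fun a _ => Finset.sum_congr rfl fun b _ => ?_
    rw [sub_eq_add_neg, ch_add, ch_neg]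
  have h2 : ((GG N x : ℝ) : ℂ) = (ch (sh N) x + ch (-sh N) x) / 2 := by
    unfold GG
    rw [ch_neg, Complex.re_eq_add_conj]
  unfold KK
  rw [Complex.ofReal_mul, h1, h2]
  have h3 : ∑ ι : Idx N, ch (phi ι) x = ∑ a : Lam N, ∑ b : Lam N,
      (ch (fr a - fr b) x * (ch (sh N) x + ch (-sh N) x)) := by
    rw [Fintype.sum_prod_type]
    refine Finset.sum_congr rfl fun a _ => ?_
    rw [Fintype.sum_prod_type]
    refine Finset.sum_congr rfl fun b _ => ?_
    simp only [phi, Fintype.sum_bool, if_true, Bool.false_eq_true, if_false]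
    rw [ch_add, ch_add (fr a - fr b)]
    ring
  rw [h3]
  simp_rw [← Finset.sum_mul]
  ring

/-- indicator -/
noncomputable def ind (p : Prop) [Decidable p] : ℝ := if p then 1 else 0

lemma ind_nonneg (p : Prop) [Decidable p] : 0 ≤ ind p := by
  unfold ind; split_ifs <;> norm_num

lemma sum_ind_fr {N : ℕ} (c : Fin 3 → ℤ) : ∑ b : Lam N, ind (fr b = c) ≤ 1 := by
  by_cases h : ∃ b : Lam N, fr b = c
  · obtain ⟨b, rfl⟩ := h
    rw [Finset.sum_eq_single b]
    · simp [ind]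
    · intro b' _ hb'
      simp only [ind]
      rw [if_neg fun h => hb' (fr_inj h)]
    · intro h
      exact absurd (Finset.mem_univ b) h
  · refine le_of_eq_of_le (Finset.sum_eq_zero fun b _ => ?_) zero_le_one
    simp only [ind]
    rw [if_neg fun hb => h ⟨b, hb⟩]

/-- few pairs have a given sum of frequencies -/
lemma count2 (N : ℕ) (n : Fin 3 → ℤ) :
    ∑ ι : Idx N, ∑ κ : Idx N, ind (phi ι + phi κ = n) ≤ 4 * (N : ℝ) ^ 9 := by
  have h1 : ∀ ι : Idx N, ∑ κ : Idx N, ind (phi ι + phi κ = n) ≤ 2 * (N : ℝ) ^ 3 := by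
    intro ι
    rw [Fintype.sum_prod_type]
    have h2 : ∀ a : Lam N, ∑ z : Lam N × Bool, ind (phi ι + phi (a, z) = n) ≤ 2 := by
      intro a
      rw [Fintype.sum_prod_type_right]
      have h3 : ∀ σ : Bool, ∑ b : Lam N, ind (phi ι + phi (a, b, σ) = n) ≤ 1 := by
        intro σ
        refine le_trans (le_of_eq ?_)
          (sum_ind_fr (N := N) (phi ι + fr a + (if σ then sh N else -sh N) - n))
        refine Finset.sum_congr rfl fun b _ => ?_
        have : phi ι + phi (a, b, σ) = n ↔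
            fr b = phi ι + fr a + (if σ then sh N else -sh N) - n := by
          simp only [phi]
          constructor
          · intro h
            rw [← h]
            abel
          · intro h
            rw [h]
            abel
        simp only [ind, this]
      calc ∑ σ : Bool, ∑ b : Lam N, ind (phi ι + phi (a, b, σ) = n) ≤ ∑ _σ : Bool, (1 : ℝ) :=
            Finset.sum_le_sum fun σ _ => h3 σ
        _ = 2 := by simp
    calc ∑ a : Lam N, ∑ z : Lam N × Bool, ind (phi ι + phi (a, z) = n)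
        ≤ ∑ _a : Lam N, (2 : ℝ) := Finset.sum_le_sum fun a _ => h2 a
      _ = 2 * (N : ℝ) ^ 3 := by
        rw [Finset.sum_const, Finset.card_univ, nsmul_eq_mul, card_Lam]
        ring
  calc ∑ ι : Idx N, ∑ κ : Idx N, ind (phi ι + phi κ = n) ≤ ∑ _ι : Idx N, 2 * (N : ℝ) ^ 3 :=
        Finset.sum_le_sum fun ι _ => h1 ι
    _ = 4 * (N : ℝ) ^ 9 := by
      rw [Finset.sum_const, Finset.card_univ, nsmul_eq_mul, card_Idx]
      ring

/-- the swap of indices changes the sign of the frequency -/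
def swp {N : ℕ} (ι : Idx N) : Idx N := (ι.2.1, ι.1, !ι.2.2)

lemma phi_swp {N : ℕ} (ι : Idx N) : phi (swp ι) = -phi ι := by
  obtain ⟨a, b, σ⟩ := ι
  cases σ <;> simp [phi, swp] <;> abel

lemma swp_swp {N : ℕ} (ι : Idx N) : swp (swp ι) = ι := by
  obtain ⟨a, b, σ⟩ := ι
  simp [swp]

/-- the set of frequencies -/
def frS (N : ℕ) : Finset (Fin 3 → ℤ) :=
  (Finset.univ : Finset ((Fin 3 → Fin (2 * N)) × Bool)).image fun d =>
    (fun i => ((d.1 i : ℕ) : ℤ) - N) + (if d.2 then sh N else -sh N)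

lemma card_frS (N : ℕ) : ((frS N).card : ℝ) ≤ 16 * (N : ℝ) ^ 3 := by
  have h1 : (frS N).card ≤ (2 * N) ^ 3 * 2 := by
    refine Finset.card_image_le.trans ?_
    simp
  calc ((frS N).card : ℝ) ≤ (((2 * N) ^ 3 * 2 : ℕ) : ℝ) := by exact_mod_cast h1
    _ = _ := by push_cast; ring

lemma phi_mem {N : ℕ} (ι : Idx N) : phi ι ∈ frS N := by
  obtain ⟨a, b, σ⟩ := ι
  refine Finset.mem_image.mpr ⟨(fun i => ⟨(a i : ℕ) + N - (b i : ℕ), ?_⟩, σ), Finset.mem_univ _, ?_⟩
  · have := (a i).2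
    have := (b i).2
    omega
  · simp only [phi]
    congr 1
    funext i
    simp only [Pi.sub_apply, fr]
    have := (b i).2
    omega

/-- many pairs have sum of frequencies zero -/
lemma count2_lower (N : ℕ) (hN : 0 < N) :
    (N : ℝ) ^ 9 / 4 ≤ ∑ ι : Idx N, ∑ κ : Idx N, ind (phi ι + phi κ = 0) := by
  have hN' : (0 : ℝ) < N := by exact_mod_cast hN
  have h1 : ∑ ι : Idx N, ∑ κ : Idx N, ind (phi ι + phi κ = 0) =
      ∑ ι : Idx N, ∑ κ : Idx N, ind (phi ι = phi κ) := by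
    refine Finset.sum_congr rfl fun ι _ => ?_
    refine Finset.sum_nbij' swp swp (fun _ _ => Finset.mem_univ _) (fun _ _ => Finset.mem_univ _)
      (fun κ _ => swp_swp κ) (fun κ _ => swp_swp κ) fun κ _ => ?_
    have : phi ι + phi κ = 0 ↔ phi ι = phi (swp κ) := by
      rw [phi_swp, ← add_eq_zero_iff_eq_neg]
    simp only [ind, this]
  rw [h1]
  have h2 : ∑ m ∈ frS N, (∑ ι : Idx N, ind (phi ι = m)) = 2 * (N : ℝ) ^ 6 := by
    rw [Finset.sum_comm]
    have : ∀ ι : Idx N, ∑ m ∈ frS N, ind (phi ι = m) = 1 := by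
      intro ι
      simp only [ind]
      rw [Finset.sum_ite_eq, if_pos (phi_mem ι)]
    simp_rw [this]
    rw [Finset.sum_const, Finset.card_univ, nsmul_eq_mul, card_Idx, mul_one]
  have h3 : ∑ m ∈ frS N, (∑ ι : Idx N, ind (phi ι = m)) ^ 2 =
      ∑ ι : Idx N, ∑ κ : Idx N, ind (phi ι = phi κ) := by
    have h4 : ∀ m, (∑ ι : Idx N, ind (phi ι = m)) ^ 2 =
        ∑ ι : Idx N, ∑ κ : Idx N, ind (phi ι = m) * ind (phi κ = m) := by
      intro m
      rw [sq, Finset.sum_mul_sum]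
    simp_rw [h4]
    rw [Finset.sum_comm]
    refine Finset.sum_congr rfl fun ι _ => ?_
    rw [Finset.sum_comm]
    refine Finset.sum_congr rfl fun κ _ => ?_
    rw [Finset.sum_eq_single (phi ι)]
    · simp [ind, eq_comm]
    · intro m _ hm
      simp only [ind]
      rw [if_neg fun h => hm h.symm, zero_mul]
    · intro h
      exact absurd (phi_mem ι) h
  have h5 := sq_sum_le_card_mul_sum_sq (s := frS N) (f := fun m => ∑ ι : Idx N, ind (phi ι = m))
  rw [h2, h3] at h5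
  have h6 : (2 * (N : ℝ) ^ 6) ^ 2 ≤ 16 * (N : ℝ) ^ 3 *
      ∑ ι : Idx N, ∑ κ : Idx N, ind (phi ι = phi κ) := by
    refine h5.trans (mul_le_mul_of_nonneg_right (card_frS N) ?_)
    exact Finset.sum_nonneg fun _ _ => Finset.sum_nonneg fun _ _ => ind_nonneg _
  have h7 : (2 * (N : ℝ) ^ 6) ^ 2 = 16 * (N : ℝ) ^ 3 * ((N : ℝ) ^ 9 / 4) := by ring
  rw [h7] at h6
  exact le_of_mul_le_mul_left h6 (by positivity)

/-- count of quadruples -/
lemma count4a (N : ℕ) :
    ∑ κ : Idx N, ∑ ν : Idx N, ∑ μ : Idx N, ∑ ι : Idx N,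
      ind (phi ν + phi κ = 0) * ind (phi ι + phi μ = 0) ≤ 16 * (N : ℝ) ^ 18 := by
  have h1 : ∑ κ : Idx N, ∑ ν : Idx N, ∑ μ : Idx N, ∑ ι : Idx N,
      ind (phi ν + phi κ = 0) * ind (phi ι + phi μ = 0) =
      (∑ κ : Idx N, ∑ ν : Idx N, ind (phi ν + phi κ = 0)) *
        ∑ μ : Idx N, ∑ ι : Idx N, ind (phi ι + phi μ = 0) := by
    simp_rw [← Finset.mul_sum, ← Finset.sum_mul]
  have h2 : ∑ κ : Idx N, ∑ ν : Idx N, ind (phi ν + phi κ = 0) ≤ 4 * (N : ℝ) ^ 9 := by
    rw [Finset.sum_comm]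
    exact count2 N 0
  have h3 : 0 ≤ ∑ κ : Idx N, ∑ ν : Idx N, ind (phi ν + phi κ = 0) :=
    Finset.sum_nonneg fun _ _ => Finset.sum_nonneg fun _ _ => ind_nonneg _
  rw [h1]
  calc (∑ κ : Idx N, ∑ ν : Idx N, ind (phi ν + phi κ = 0)) *
        ∑ μ : Idx N, ∑ ι : Idx N, ind (phi ι + phi μ = 0)
      ≤ (4 * (N : ℝ) ^ 9) * (4 * (N : ℝ) ^ 9) := mul_le_mul h2 h2 h3 (by positivity)
    _ = _ := by ring

lemma count4b (N : ℕ) :
    ∑ κ : Idx N, ∑ ν : Idx N, ∑ μ : Idx N, ∑ ι : Idx N,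
      ind (phi ι + phi μ + phi ν + phi κ = 0) ≤ 16 * (N : ℝ) ^ 21 := by
  have h1 : ∀ κ ν : Idx N, ∑ μ : Idx N, ∑ ι : Idx N, ind (phi ι + phi μ + phi ν + phi κ = 0) ≤
      4 * (N : ℝ) ^ 9 := by
    intro κ ν
    rw [Finset.sum_comm]
    refine le_trans (le_of_eq ?_) (count2 N (-(phi ν + phi κ)))
    refine Finset.sum_congr rfl fun ι _ => Finset.sum_congr rfl fun μ _ => ?_
    have : phi ι + phi μ + phi ν + phi κ = 0 ↔ phi ι + phi μ = -(phi ν + phi κ) := by
      rw [← add_eq_zero_iff_eq_neg, ← add_assoc]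
    simp only [ind, this]
  calc ∑ κ : Idx N, ∑ ν : Idx N, ∑ μ : Idx N, ∑ ι : Idx N,
      ind (phi ι + phi μ + phi ν + phi κ = 0) ≤ ∑ _κ : Idx N, ∑ _ν : Idx N, 4 * (N : ℝ) ^ 9 :=
        Finset.sum_le_sum fun κ _ => Finset.sum_le_sum fun ν _ => h1 κ ν
    _ = _ := by
      rw [Finset.sum_const, Finset.sum_const, Finset.card_univ, nsmul_eq_mul, nsmul_eq_mul,
        card_Idx]
      ring

end Pool.Agent.H211Torus
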