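import Mathlib

/-!
# The transport cost of exponent `1/2` of the occupation measure of Brownian motion on `𝕋³`

Definitions.
-/

set_option autoImplicit false

open MeasureTheory ProbabilityTheory
open scoped ENNReal NNReal

namespace Pool.Agent.H211Torus

/-- the flat torus `𝕋³ = ℝ³/ℤ³`; its `volume` is the Lebesgue (Haar) probability measure -/
abbrev T3 := Fin 3 → UnitAddCircle

/-- the projection `ℝ³ → 𝕋³` -/
def proj (x : Fin 3 → ℝ) : T3 := fun i => (x i : UnitAddCircle)

/-- the quotient distance of `𝕋³`: the norm of `UnitAddCircle` is the distance to the nearest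
integer -/
noncomputable def tdist (x y : T3) : ℝ := Real.sqrt (∑ i, ‖x i - y i‖ ^ 2)

/-- `W^p(μ, ν)`: infimum of the transport cost over all couplings (no `p`-th root) -/
noncomputable def wcost (p : ℝ) (μ ν : Measure T3) : ℝ≥0∞ :=
  ⨅ π : Measure (T3 × T3), ⨅ _ : π.map Prod.fst = μ ∧ π.map Prod.snd = ν,
    ∫⁻ z, ENNReal.ofReal (tdist z.1 z.2 ^ p) ∂π

/-- `W^p_{𝕋³}(μ) = W^p(μ, μ(𝕋³) Leb)` -/
noncomputable def torusCost (p : ℝ) (μ : Measure T3) : ℝ≥0∞ :=
  wcost p μ (μ Set.univ • volume)

/-- `X` is a standard Brownian motion on `ℝ³` (continuous paths, increments independent of the past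
with law `N(0, (t - s) I₃)`), started at a point whose projection to `𝕋³` has the uniform law: so
`proj (X t)` is a stationary Brownian motion on `𝕋³`. -/
structure IsStationaryBM {Ω : Type*} [MeasurableSpace Ω] (P : Measure Ω)
    (X : ℝ≥0 → Ω → Fin 3 → ℝ) : Prop where
  meas : ∀ t, Measurable (X t)
  cont : ∀ ω, Continuous fun t => X t ω
  law_zero : P.map (fun ω => proj (X 0 ω)) = volume
  law_incr : ∀ s t, s ≤ t → P.map (fun ω => X t ω - X s ω) =
    Measure.pi fun _ : Fin 3 => gaussianReal 0 (t - s)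
  indep : ∀ s t, s ≤ t →
    IndepFun (fun ω (r : Set.Iic s) => X r ω) (fun ω => X t ω - X s ω) P

/-- the occupation measure `μ_T = ∫_0^T δ_{B_t} dt` of `B_t = proj (X t)` -/
noncomputable def occ {Ω : Type*} (X : ℝ≥0 → Ω → Fin 3 → ℝ) (T : ℝ) (ω : Ω) : Measure T3 :=
  (volume.restrict (Set.Icc 0 T)).map fun t : ℝ => proj (X t.toNNReal ω)

end Pool.Agent.H211Torus
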