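import Pool.Agent.H211Torus.Moments

set_option autoImplicit false

open MeasureTheory ProbabilityTheory
open scoped ENNReal NNReal ComplexConjugate

namespace Pool.Agent.H211Torus

/-! ### a telescoping bound -/

lemma min_tele (x : ℝ) (hx : 0 < x) :
    min (1 / x) x ≤ 6 * (2 * x / (1 + 2 * x) - x / (1 + x)) := by
  have h1 : 2 * x / (1 + 2 * x) - x / (1 + x) = x / ((1 + 2 * x) * (1 + x)) := by
    field_simp
    ring
  rw [h1]
  rcases le_total x 1 with h | h
  · refine (min_le_right _ _).trans ?_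
    rw [mul_div_assoc', le_div_iff₀ (by positivity)]
    nlinarith [mul_nonneg hx.le hx.le]
  · refine (min_le_left _ _).trans ?_
    rw [mul_div_assoc', div_le_div_iff₀ hx (by positivity)]
    nlinarith

lemma sum_min (x : ℝ) (hx : 0 < x) (n : ℕ) :
    ∑ k ∈ Finset.range n, min (1 / (2 ^ k * x)) (2 ^ k * x) ≤ 6 := by
  have h1 : ∀ k ∈ Finset.range n, min (1 / (2 ^ k * x)) (2 ^ k * x) ≤
      6 * ((2 ^ (k + 1) * x) / (1 + 2 ^ (k + 1) * x)) - 6 * ((2 ^ k * x) / (1 + 2 ^ k * x)) := by
    intro k _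
    have := min_tele (2 ^ k * x) (by positivity)
    have e : 2 * (2 ^ k * x) = 2 ^ (k + 1) * x := by ring
    rw [e] at this
    linarith
  refine (Finset.sum_le_sum h1).trans ?_
  rw [Finset.sum_range_sub (fun k => 6 * ((2 ^ k * x) / (1 + 2 ^ k * x)))]
  have h2 : (2 ^ n * x) / (1 + 2 ^ n * x) ≤ 1 := by
    rw [div_le_one (by positivity)]
    linarith
  have h3 : 0 ≤ (2 ^ 0 * x) / (1 + 2 ^ 0 * x) := by positivity
  linarith

/-! ### the test function -/

/-- the scales -/
def NN (k : ℕ) : ℕ := 4 ^ k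

lemma NN_pos (k : ℕ) : 0 < NN k := by unfold NN; positivity

lemma NN_cast (k : ℕ) : ((NN k : ℕ) : ℝ) = 4 ^ k := by unfold NN; push_cast; rfl

attribute [irreducible] NN

/-- sum over scales of the smoothed signs -/
noncomputable def tf (n : ℕ) (s : ℕ → T3 → ℝ) (x : T3) : ℝ :=
  1 / 264 * ∑ k ∈ Finset.range n, 1 / 2 ^ k * hh (NN k) (s k) x

lemma tf_holder (n : ℕ) (s : ℕ → T3 → ℝ) (hs : ∀ k, Measurable (s k))
    (hs1 : ∀ k y, |s k y| ≤ 1) (x y : T3) :
    |tf n s x - tf n s y| ≤ tdist x y ^ (1 / 2 : ℝ) := by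
  rw [← Real.sqrt_eq_rpow]
  set u := Real.sqrt (tdist x y) with hu
  have hu0 : 0 ≤ u := Real.sqrt_nonneg _
  have hu2 : u ^ 2 = tdist x y := Real.sq_sqrt (tdist_nonneg x y)
  have h4 : ∀ k : ℕ, 0 < NN k := NN_pos
  have hd : ∀ k, |hh (NN k) (s k) x - hh (NN k) (s k) y| ≤ 44 * 4 ^ k * u ^ 2 := by
    intro k
    refine (hh_diff (NN k) (h4 k) (s k) (hs k) (hs1 k) x y).trans ?_
    have h1 := sdist_le x y
    have h2 : Real.sqrt 3 ≤ 1.7321 := by
      rw [Real.sqrt_le_left (by norm_num)]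
      norm_num
    have h3 : Real.pi ≤ 3.1416 := Real.pi_lt_d4.le
    rw [hu2]
    have h5 : 8 * Real.pi * Real.sqrt 3 ≤ 44 := by
      have := mul_le_mul h3 h2 (Real.sqrt_nonneg _) (by norm_num)
      nlinarith
    rw [NN_cast]
    calc 8 * Real.pi * 4 ^ k * sdist x y ≤ 8 * Real.pi * 4 ^ k * (Real.sqrt 3 * tdist x y) :=
          mul_le_mul_of_nonneg_left h1 (by positivity)
      _ = (8 * Real.pi * Real.sqrt 3) * (4 ^ k * tdist x y) := by ring
      _ ≤ 44 * (4 ^ k * tdist x y) :=
          mul_le_mul_of_nonneg_right h5 (mul_nonneg (by positivity) (tdist_nonneg _ _))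
      _ = _ := by ring
  have hd2 : ∀ k, |hh (NN k) (s k) x - hh (NN k) (s k) y| ≤ 2 := by
    intro k
    have h1 := abs_hh (NN k) (h4 k) (s k) (hs k) (hs1 k) x
    have h2 := abs_hh (NN k) (h4 k) (s k) (hs k) (hs1 k) y
    rw [abs_le] at h1 h2 ⊢
    constructor <;> linarith [h1.1, h1.2, h2.1, h2.2]
  have h1 : tf n s x - tf n s y = 1 / 264 * ∑ k ∈ Finset.range n,
      1 / 2 ^ k * (hh (NN k) (s k) x - hh (NN k) (s k) y) := by
    unfold tf
    rw [← mul_sub, ← Finset.sum_sub_distrib]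
    congr 1
    refine Finset.sum_congr rfl fun k _ => ?_
    ring
  rw [h1, abs_mul, abs_of_pos (by norm_num : (0 : ℝ) < 1 / 264)]
  have h2 : |∑ k ∈ Finset.range n, 1 / 2 ^ k * (hh (NN k) (s k) x - hh (NN k) (s k) y)| ≤
      264 * u := by
    refine (Finset.abs_sum_le_sum_abs _ _).trans ?_
    rcases hu0.eq_or_lt with h0 | h0
    · have : ∀ k ∈ Finset.range n,
          |1 / 2 ^ k * (hh (NN k) (s k) x - hh (NN k) (s k) y)| = 0 := by
        intro k _
        have := hd k
        rw [← h0] at this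
        have h3 : hh (NN k) (s k) x - hh (NN k) (s k) y = 0 := by
          rw [← abs_eq_zero]
          refine le_antisymm (this.trans_eq ?_) (abs_nonneg _)
          ring
        rw [h3]
        simp
      rw [Finset.sum_congr rfl this, ← h0]
      simp
    · have h3 : ∀ k ∈ Finset.range n,
          |1 / 2 ^ k * (hh (NN k) (s k) x - hh (NN k) (s k) y)| ≤
          44 * u * min (1 / (2 ^ k * u)) (2 ^ k * u) := by
        intro k _
        rw [abs_mul, abs_of_pos (by positivity : (0 : ℝ) < 1 / 2 ^ k)]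
        rcases le_total (1 / (2 ^ k * u)) (2 ^ k * u) with h5 | h5
        · rw [min_eq_left h5]
          calc 1 / 2 ^ k * |hh (NN k) (s k) x - hh (NN k) (s k) y| ≤ 1 / 2 ^ k * 2 :=
                mul_le_mul_of_nonneg_left (hd2 k) (by positivity)
            _ ≤ 1 / 2 ^ k * 44 := mul_le_mul_of_nonneg_left (by norm_num) (by positivity)
            _ = 44 * u * (1 / (2 ^ k * u)) := by field_simp
        · rw [min_eq_right h5]
          calc 1 / 2 ^ k * |hh (NN k) (s k) x - hh (NN k) (s k) y|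
              ≤ 1 / 2 ^ k * (44 * 4 ^ k * u ^ 2) :=
                mul_le_mul_of_nonneg_left (hd k) (by positivity)
            _ = 44 * u * (2 ^ k * u) := by
                have : (4 : ℝ) ^ k = 2 ^ k * 2 ^ k := by rw [← mul_pow]; norm_num
                rw [this]
                field_simp
      refine (Finset.sum_le_sum h3).trans ?_
      rw [← Finset.mul_sum]
      calc 44 * u * ∑ k ∈ Finset.range n, min (1 / (2 ^ k * u)) (2 ^ k * u) ≤ 44 * u * 6 :=
            mul_le_mul_of_nonneg_left (sum_min u h0 n) (by positivity)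
        _ = 264 * u := by ring
  calc 1 / 264 * |∑ k ∈ Finset.range n, 1 / 2 ^ k * (hh (NN k) (s k) x - hh (NN k) (s k) y)|
      ≤ 1 / 264 * (264 * u) := mul_le_mul_of_nonneg_left h2 (by norm_num)
    _ = u := by ring

/-! ### duality -/

lemma dual_le (p : ℝ) (μ ν : Measure T3) [IsFiniteMeasure μ] (f : T3 → ℝ) (hf : Measurable f)
    (C : ℝ) (hC : ∀ x, |f x| ≤ C) (hh : ∀ x y, |f x - f y| ≤ tdist x y ^ p) :
    ENNReal.ofReal (∫ x, f x ∂μ - ∫ x, f x ∂ν) ≤ wcost p μ ν := by
  unfold wcost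
  refine le_iInf fun π => le_iInf fun hπ => ?_
  obtain ⟨h1, h2⟩ := hπ
  have hπfin : IsFiniteMeasure π := by
    constructor
    have : π Set.univ = μ Set.univ := by
      rw [← h1, Measure.map_apply measurable_fst MeasurableSet.univ, Set.preimage_univ]
    rw [this]
    exact measure_lt_top μ _
  rw [← h1, ← h2, integral_map measurable_fst.aemeasurable hf.aestronglyMeasurable,
    integral_map measurable_snd.aemeasurable hf.aestronglyMeasurable]
  have i1 : Integrable (fun z : T3 × T3 => f z.1) π :=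
    Integrable.of_bound (hf.comp measurable_fst).aestronglyMeasurable C
      (Filter.Eventually.of_forall fun z => hC z.1)
  have i2 : Integrable (fun z : T3 × T3 => f z.2) π :=
    Integrable.of_bound (hf.comp measurable_snd).aestronglyMeasurable C
      (Filter.Eventually.of_forall fun z => hC z.2)
  rw [← integral_sub i1 i2]
  calc ENNReal.ofReal (∫ z, (f z.1 - f z.2) ∂π) ≤ ENNReal.ofReal (∫ z, |f z.1 - f z.2| ∂π) :=
        ENNReal.ofReal_le_ofReal (integral_mono (i1.sub i2) (i1.sub i2).abs fun z => le_abs_self _)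
    _ = ∫⁻ z, ENNReal.ofReal |f z.1 - f z.2| ∂π :=
        ofReal_integral_eq_lintegral_ofReal (i1.sub i2).abs
          (Filter.Eventually.of_forall fun z => abs_nonneg _)
    _ ≤ ∫⁻ z, ENNReal.ofReal (tdist z.1 z.2 ^ p) ∂π :=
        lintegral_mono fun z => ENNReal.ofReal_le_ofReal (hh _ _)

/-! ### integrals of the smoothed sign -/

lemma hh_joint (N : ℕ) (s : T3 → ℝ) (hs : Measurable s) :
    Measurable fun z : T3 × T3 => KK N (z.1 - z.2) * s z.2 :=
  ((continuous_KK N).comp (continuous_fst.sub continuous_snd)).measurable.mul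
    (hs.comp measurable_snd)

lemma hh_meas (N : ℕ) (s : T3 → ℝ) (hs : Measurable s) : Measurable (hh N s) :=
  ((hh_joint N s hs).stronglyMeasurable.integral_prod_right' (ν := volume)).measurable

lemma KK_joint_int (N : ℕ) (hN : 0 < N) (s : T3 → ℝ) (hs : Measurable s) (hs1 : ∀ y, |s y| ≤ 1)
    (μ : Measure T3) [IsFiniteMeasure μ] :
    Integrable (Function.uncurry fun x y : T3 => KK N (x - y) * s y) (μ.prod volume) := by
  refine Integrable.of_bound (hh_joint N s hs).aestronglyMeasurable ((N : ℝ) ^ 3)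
    (Filter.Eventually.of_forall fun z => ?_)
  obtain ⟨x, y⟩ := z
  simp only [Function.uncurry_apply_pair, Real.norm_eq_abs]
  rw [abs_mul]
  exact (mul_le_of_le_one_right (abs_nonneg _) (hs1 y)).trans ((abs_KK N _).trans (FF_le N hN _))

lemma integral_hh (N : ℕ) (hN : 0 < N) (s : T3 → ℝ) (hs : Measurable s) (hs1 : ∀ y, |s y| ≤ 1)
    (μ : Measure T3) [IsFiniteMeasure μ] :
    ∫ x, hh N s x ∂μ = ∫ y : T3, (∫ x, KK N (x - y) ∂μ) * s y := by
  unfold hh
  rw [integral_integral_swap (KK_joint_int N hN s hs hs1 μ)]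
  refine integral_congr_ae (Filter.Eventually.of_forall fun y => ?_)
  exact integral_mul_const _ _

lemma integral_KK_zero (N : ℕ) (hN : 0 < N) (y : T3) : ∫ x : T3, KK N (x - y) = 0 := by
  have h1 : ((∫ x : T3, KK N (x - y) : ℝ) : ℂ) = 0 := by
    rw [← integral_complex_ofReal]
    simp_rw [KK_expand]
    have hc : ∀ ι : Idx N, Integrable (fun x : T3 => ch (phi ι) (x - y)) volume := fun ι =>
      cont_int ((continuous_ch _).comp (continuous_id.sub continuous_const))
    rw [integral_const_mul, integral_finset_sum _ fun ι _ => hc ι]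
    rw [Finset.sum_eq_zero, mul_zero]
    intro ι _
    simp_rw [ch_sub_arg]
    rw [integral_mul_const, integral_ch, if_neg, zero_mul]
    intro h0
    have h2 := q2_phi_lower ι
    rw [h0] at h2
    have h3 : q2 0 = 0 := by simp [q2]
    rw [h3] at h2
    have : (0 : ℝ) < (N : ℝ) ^ 2 := by positivity
    linarith
  exact_mod_cast h1

lemma integral_hh_vol (N : ℕ) (hN : 0 < N) (s : T3 → ℝ) (hs : Measurable s)
    (hs1 : ∀ y, |s y| ≤ 1) : ∫ x : T3, hh N s x = 0 := by
  rw [integral_hh N hN s hs hs1 volume]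
  simp_rw [integral_KK_zero N hN]
  simp

end Pool.Agent.H211Torus
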