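import Pool.Agent.H211Torus.Dual

set_option autoImplicit false
set_option maxHeartbeats 400000

open MeasureTheory ProbabilityTheory
open scoped ENNReal NNReal ComplexConjugate

namespace Pool.Agent.H211Torus

/-! ### the occupation measure -/

variable {Ω : Type*} [MeasurableSpace Ω] {P : Measure Ω} {X : ℝ≥0 → Ω → Fin 3 → ℝ}

lemma occ_fin (T : ℝ) (ω : Ω) : IsFiniteMeasure (occ X T ω) := by
  unfold occ
  infer_instance

lemma integral_occ (h : IsStationaryBM P X) (T : ℝ) (hT : 0 ≤ T) (ω : Ω) (f : T3 → ℝ)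
    (hf : Measurable f) : ∫ x, f x ∂(occ X T ω) = ∫ t in (0 : ℝ)..T, f (Bt X t ω) := by
  unfold occ
  have hm : Measurable fun t : ℝ => proj (X t.toNNReal ω) := (Bt_cont h ω).measurable
  rw [integral_map hm.aemeasurable hf.aestronglyMeasurable, integral_Icc_eq_integral_Ioc,
    intervalIntegral.integral_of_le hT]
  rfl

lemma integral_KK_occ (h : IsStationaryBM P X) (N : ℕ) (T : ℝ) (hT : 0 ≤ T) (ω : Ω) (y : T3) :
    ∫ x, KK N (x - y) ∂(occ X T ω) = YY (kk N X y) T ω := by
  rw [integral_occ h T hT ω (fun x => KK N (x - y))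
    ((continuous_KK _).comp (continuous_id.sub continuous_const)).measurable]
  rfl

/-- the functional as a function of the point and of the path -/
lemma YY_joint (h : IsStationaryBM P X) (N : ℕ) (T : ℝ) (hT : 0 ≤ T) :
    Measurable fun z : T3 × Ω => YY (kk N X z.1) T z.2 := by
  have hK : Measurable fun z : T3 × T3 => KK N (z.1 - z.2) :=
    ((continuous_KK N).comp (continuous_fst.sub continuous_snd)).measurable
  have h1 : Measurable fun w : (T3 × Ω) × ℝ => KK N (Bt X w.2 w.1.2 - w.1.1) := by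
    have h5 : Measurable fun w : (T3 × Ω) × ℝ => (w.2, w.1.2) :=
      measurable_snd.prodMk (measurable_snd.comp measurable_fst)
    have h6 : Measurable fun w : (T3 × Ω) × ℝ => Bt X w.2 w.1.2 := (Bt_meas h).comp h5
    have h7 : Measurable fun w : (T3 × Ω) × ℝ => w.1.1 := measurable_fst.comp measurable_fst
    have h2 : Measurable fun w : (T3 × Ω) × ℝ => (Bt X w.2 w.1.2, w.1.1) := h6.prodMk h7
    have h8 := hK.comp h2
    exact h8
  have h3 := (h1.stronglyMeasurable.integral_prod_right'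
    (ν := volume.restrict (Set.Ioc 0 T))).measurable
  have h4 : (fun z : T3 × Ω => YY (kk N X z.1) T z.2) = fun z : T3 × Ω =>
      ∫ t in Set.Ioc 0 T, KK N (Bt X t z.2 - z.1) := by
    funext z
    unfold YY kk
    rw [intervalIntegral.integral_of_le hT]
  rw [h4]
  exact h3

/-- sign of the functional -/
noncomputable def sg (X : ℝ≥0 → Ω → Fin 3 → ℝ) (T : ℝ) (ω : Ω) (k : ℕ) (y : T3) : ℝ :=
  if 0 ≤ YY (kk (NN k) X y) T ω then 1 else -1

lemma sg_abs (T : ℝ) (ω : Ω) (k : ℕ) (y : T3) : |sg X T ω k y| ≤ 1 := by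
  unfold sg
  split_ifs <;> simp

lemma sg_meas (h : IsStationaryBM P X) (T : ℝ) (hT : 0 ≤ T) (ω : Ω) (k : ℕ) :
    Measurable (sg X T ω k) := by
  have h2 : Measurable fun y : T3 => (y, ω) := measurable_id.prodMk measurable_const
  have h1 : Measurable fun y : T3 => YY (kk (NN k) X y) T ω := by
    have h3 := (YY_joint h (NN k) T hT).comp h2
    exact h3
  exact Measurable.ite (measurableSet_le measurable_const h1) measurable_const measurable_const

lemma sg_mul (T : ℝ) (ω : Ω) (k : ℕ) (y : T3) :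
    YY (kk (NN k) X y) T ω * sg X T ω k y = |YY (kk (NN k) X y) T ω| := by
  unfold sg
  split_ifs with h
  · rw [mul_one, abs_of_nonneg h]
  · rw [mul_neg_one, abs_of_neg (not_le.mp h)]

lemma integral_hh_occ (h : IsStationaryBM P X) (T : ℝ) (hT : 0 ≤ T) (ω : Ω) (k : ℕ) :
    ∫ x, hh (NN k) (sg X T ω k) x ∂(occ X T ω) =
      ∫ y : T3, |YY (kk (NN k) X y) T ω| := by
  have := occ_fin (X := X) T ω
  rw [integral_hh (NN k) (NN_pos k) _ (sg_meas h T hT ω k) (sg_abs T ω k)]
  refine integral_congr_ae (Filter.Eventually.of_forall fun y => ?_)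
  simp only
  rw [integral_KK_occ h (NN k) T hT ω y]
  exact sg_mul T ω k y

/-- pathwise lower bound of the transport cost -/
lemma cost_lower (h : IsStationaryBM P X) (T : ℝ) (hT : 0 ≤ T) (ω : Ω) (n : ℕ) :
    ENNReal.ofReal (1 / 264 * ∑ k ∈ Finset.range n,
      1 / 2 ^ k * ∫ y : T3, |YY (kk (NN k) X y) T ω|) ≤ torusCost (1 / 2) (occ X T ω) := by
  have := occ_fin (X := X) T ω
  have hms : ∀ k, Measurable (sg X T ω k) := sg_meas h T hT ω
  have h4 : ∀ k : ℕ, 0 < NN k := NN_pos
  have hm : Measurable (tf n (sg X T ω)) := by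
    unfold tf
    exact (Finset.measurable_sum _ fun k _ => (hh_meas _ _ (hms k)).const_mul _).const_mul _
  have hb : ∀ x, |tf n (sg X T ω) x| ≤ 1 / 264 * ∑ k ∈ Finset.range n, 1 / 2 ^ k := by
    intro x
    unfold tf
    rw [abs_mul, abs_of_pos (by norm_num : (0 : ℝ) < 1 / 264)]
    refine mul_le_mul_of_nonneg_left ?_ (by norm_num)
    refine (Finset.abs_sum_le_sum_abs _ _).trans (Finset.sum_le_sum fun k _ => ?_)
    rw [abs_mul, abs_of_pos (by positivity : (0 : ℝ) < 1 / 2 ^ k)]
    exact mul_le_of_le_one_right (by positivity)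
      (abs_hh (NN k) (h4 k) _ (hms k) (sg_abs T ω k) x)
  have h1 := dual_le (1 / 2) (occ X T ω) (occ X T ω Set.univ • volume) (tf n (sg X T ω)) hm _ hb
    (tf_holder n _ hms fun k y => sg_abs T ω k y)
  refine le_trans (le_of_eq ?_) h1
  congr 1
  have hint : ∀ (μ : Measure T3) [IsFiniteMeasure μ] (k : ℕ),
      Integrable (fun x => hh (NN k) (sg X T ω k) x) μ := by
    intro μ _ k
    exact Integrable.of_bound (hh_meas _ _ (hms k)).aestronglyMeasurable 1
      (Filter.Eventually.of_forall fun x => abs_hh (NN k) (h4 k) _ (hms k) (sg_abs T ω k) x)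
  have h2 : ∀ (μ : Measure T3) [IsFiniteMeasure μ], ∫ x, tf n (sg X T ω) x ∂μ =
      1 / 264 * ∑ k ∈ Finset.range n, 1 / 2 ^ k * ∫ x, hh (NN k) (sg X T ω k) x ∂μ := by
    intro μ _
    unfold tf
    rw [integral_const_mul, integral_finset_sum _ fun k _ => (hint μ k).const_mul _]
    simp_rw [integral_const_mul]
  rw [integral_smul_measure, h2 (occ X T ω), h2 volume]
  simp_rw [integral_hh_occ h T hT ω]
  have h3 : ∀ k ∈ Finset.range n, 1 / 2 ^ k * ∫ x, hh (NN k) (sg X T ω k) x = 0 := by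
    intro k _
    rw [integral_hh_vol _ (h4 k) _ (hms k) (sg_abs T ω k), mul_zero]
  rw [Finset.sum_congr rfl h3]
  simp

variable [IsProbabilityMeasure P]

/-- lower bound of the expected cost -/
lemma expected_lower (h : IsStationaryBM P X) (T : ℝ) (hT : 1 ≤ T) (n : ℕ)
    (hn : ∀ k < n, (64 : ℝ) ^ k ≤ T) :
    ENNReal.ofReal (n * Real.sqrt T / 158400000) ≤
      ∫⁻ ω, torusCost (1 / 2) (occ X T ω) ∂P := by
  have hT0 : 0 ≤ T := by linarith
  have h4 : ∀ k : ℕ, 0 < NN k := NN_pos
  have hjm : ∀ k, Measurable fun z : T3 × Ω => |YY (kk (NN k) X z.1) T z.2| := fun k =>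
    (YY_joint h (NN k) T hT0).abs
  have hji : ∀ k, Integrable (Function.uncurry fun (ω : Ω) (y : T3) =>
      |YY (kk (NN k) X y) T ω|) (P.prod volume) := by
    intro k
    refine Integrable.of_bound ((hjm k).comp measurable_swap).aestronglyMeasurable
      (((NN k : ℕ) : ℝ) ^ 3 * |T|) (Filter.Eventually.of_forall fun z => ?_)
    obtain ⟨ω, y⟩ := z
    simp only [Function.uncurry_apply_pair, Real.norm_eq_abs, abs_abs]
    exact YY_bdd (kk_proc h (NN k) (h4 k) y) T ω
  have hki : ∀ k, Integrable (fun ω => ∫ y : T3, |YY (kk (NN k) X y) T ω|) P := fun k =>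
    (hji k).integral_prod_left
  have h1 : ∫⁻ ω, ENNReal.ofReal (1 / 264 * ∑ k ∈ Finset.range n,
      1 / 2 ^ k * ∫ y : T3, |YY (kk (NN k) X y) T ω|) ∂P ≤
      ∫⁻ ω, torusCost (1 / 2) (occ X T ω) ∂P :=
    lintegral_mono fun ω => cost_lower h T hT0 ω n
  refine le_trans ?_ h1
  have hi : Integrable (fun ω => 1 / 264 * ∑ k ∈ Finset.range n,
      1 / 2 ^ k * ∫ y : T3, |YY (kk (NN k) X y) T ω|) P :=
    (integrable_finset_sum _ fun k _ => (hki k).const_mul _).const_mul _
  rw [← ofReal_integral_eq_lintegral_ofReal hi (Filter.Eventually.of_forall fun ω => by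
    show 0 ≤ 1 / 264 * ∑ k ∈ Finset.range n, 1 / 2 ^ k * ∫ y : T3, |YY (kk (NN k) X y) T ω|
    refine mul_nonneg (by norm_num) (Finset.sum_nonneg fun k _ => mul_nonneg (by positivity) ?_)
    exact integral_nonneg fun y => abs_nonneg _)]
  refine ENNReal.ofReal_le_ofReal ?_
  rw [integral_const_mul, integral_finset_sum _ fun k _ => (hki k).const_mul _]
  simp_rw [integral_const_mul]
  have h2 : ∀ k ∈ Finset.range n, Real.sqrt T / 600000 ≤
      1 / 2 ^ k * ∫ ω, (∫ y : T3, |YY (kk (NN k) X y) T ω|) ∂P := by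
    intro k hk
    rw [integral_integral_swap (hji k)]
    have h3 : ∀ y : T3, Real.sqrt (((NN k : ℕ) : ℝ) * T) / 600000 ≤
        ∫ ω, |YY (kk (NN k) X y) T ω| ∂P := by
      intro y
      refine first_kk h (NN k) (h4 k) y T hT ?_
      have := hn k (Finset.mem_range.mp hk)
      rw [NN_cast]
      calc ((4 : ℝ) ^ k) ^ 3 = 64 ^ k := by rw [← pow_mul, mul_comm, pow_mul]; norm_num
        _ ≤ T := this
    have h5 : Real.sqrt (((NN k : ℕ) : ℝ) * T) = 2 ^ k * Real.sqrt T := by
      rw [NN_cast, show (4 : ℝ) ^ k * T = (2 ^ k) ^ 2 * T by rw [← pow_mul, mul_comm k 2, pow_mul]; norm_num,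
        Real.sqrt_mul (by positivity), Real.sqrt_sq (by positivity)]
    rw [h5] at h3
    have h6 : ∫ _y : T3, (2 ^ k * Real.sqrt T / 600000) ≤
        ∫ y : T3, (∫ ω, |YY (kk (NN k) X y) T ω| ∂P) :=
      integral_mono (integrable_const _) (hji k).integral_prod_right h3
    rw [integral_const] at h6
    simp only [probReal_univ, one_smul] at h6
    calc Real.sqrt T / 600000 = 1 / 2 ^ k * (2 ^ k * Real.sqrt T / 600000) := by field_simp
      _ ≤ _ := mul_le_mul_of_nonneg_left h6 (by positivity)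
  calc (n : ℝ) * Real.sqrt T / 158400000 = 1 / 264 * ∑ _k ∈ Finset.range n,
        Real.sqrt T / 600000 := by
        rw [Finset.sum_const, Finset.card_range, nsmul_eq_mul]
        ring
    _ ≤ _ := mul_le_mul_of_nonneg_left (Finset.sum_le_sum h2) (by norm_num)

/-- the order of magnitude is at least `√T log T` -/
theorem main_lower (h : IsStationaryBM P X) (T : ℝ) (hT : 64 ≤ T) :
    ENNReal.ofReal (1 / 1000000000 * (Real.sqrt T * Real.log T)) ≤
      ∫⁻ ω, torusCost (1 / 2) (occ X T ω) ∂P := by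
  have hlog64 : Real.log 64 ≤ 5 := by
    rw [Real.log_le_iff_le_exp (by norm_num)]
    have h1 := Real.exp_one_gt_d9
    calc (64 : ℝ) ≤ 2.7 ^ 5 := by norm_num
      _ ≤ (Real.exp 1) ^ 5 := pow_le_pow_left₀ (by norm_num) (by linarith) 5
      _ = Real.exp 5 := by rw [← Real.exp_nat_mul]; norm_num
  have hlog0 : 0 < Real.log 64 := Real.log_pos (by norm_num)
  have hlogT : 0 < Real.log T := Real.log_pos (by linarith)
  set n := ⌊Real.log T / Real.log 64⌋₊ + 1 with hn
  have h1 : ∀ k < n, (64 : ℝ) ^ k ≤ T := by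
    intro k hk
    have h2 : k ≤ ⌊Real.log T / Real.log 64⌋₊ := by omega
    have h3 : (k : ℝ) ≤ Real.log T / Real.log 64 :=
      (Nat.le_floor_iff (by positivity)).mp h2
    rw [le_div_iff₀ hlog0, ← Real.log_pow] at h3
    exact (Real.log_le_log_iff (by positivity) (by linarith)).mp h3
  refine le_trans (ENNReal.ofReal_le_ofReal ?_) (expected_lower h T (by linarith) n h1)
  have h4 : Real.log T / 5 ≤ n := by
    have h5 : Real.log T / Real.log 64 < n := by
      rw [hn]
      push_cast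
      exact Nat.lt_floor_add_one _
    refine le_trans ?_ h5.le
    exact div_le_div_of_nonneg_left hlogT.le hlog0 hlog64
  have h6 : 0 ≤ Real.sqrt T := Real.sqrt_nonneg _
  calc 1 / 1000000000 * (Real.sqrt T * Real.log T) ≤
        (Real.log T / 5) * Real.sqrt T / 158400000 := by
        have : 0 ≤ Real.sqrt T * Real.log T := by positivity
        nlinarith
    _ ≤ n * Real.sqrt T / 158400000 := by
        refine div_le_div_of_nonneg_right ?_ (by norm_num)
        exact mul_le_mul_of_nonneg_right h4 h6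

end Pool.Agent.H211Torus
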