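import Pool.Agent.H211Torus.Defs

set_option autoImplicit false

open MeasureTheory ProbabilityTheory
open scoped ENNReal NNReal ComplexConjugate

namespace Pool.Agent.H211Torus

/-- characters of the torus -/
noncomputable def ch (m : Fin 3 → ℤ) (x : T3) : ℂ := ∏ i, fourier (m i) (x i)

lemma ch_zero (x : T3) : ch 0 x = 1 := by
  simp [ch]

lemma ch_add (m n : Fin 3 → ℤ) (x : T3) : ch (m + n) x = ch m x * ch n x := by
  simp only [ch, Pi.add_apply, fourier_add, Finset.prod_mul_distrib]

lemma ch_neg (m : Fin 3 → ℤ) (x : T3) : ch (-m) x = conj (ch m x) := by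
  simp only [ch, Pi.neg_apply, fourier_neg, map_prod]

lemma norm_ch (m : Fin 3 → ℤ) (x : T3) : ‖ch m x‖ = 1 := by
  unfold ch
  rw [norm_prod]
  refine Finset.prod_eq_one fun i _ => ?_
  rw [fourier_apply]
  simp

lemma ch_add_arg (m : Fin 3 → ℤ) (x y : T3) : ch m (x + y) = ch m x * ch m y := by
  unfold ch
  rw [← Finset.prod_mul_distrib]
  refine Finset.prod_congr rfl fun i _ => ?_
  simp only [Pi.add_apply, fourier_apply, smul_add, AddCircle.toCircle_add, Circle.coe_mul]

lemma ch_neg_arg (m : Fin 3 → ℤ) (x : T3) : ch m (-x) = conj (ch m x) := by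
  rw [← ch_neg]
  unfold ch
  refine Finset.prod_congr rfl fun i _ => ?_
  simp only [Pi.neg_apply, fourier_apply, smul_neg, neg_smul]

lemma ch_sub_arg (m : Fin 3 → ℤ) (x y : T3) : ch m (x - y) = ch m x * conj (ch m y) := by
  rw [sub_eq_add_neg, ch_add_arg, ch_neg_arg]

lemma continuous_ch (m : Fin 3 → ℤ) : Continuous (ch m) := by
  unfold ch
  fun_prop

lemma ch_proj (m : Fin 3 → ℤ) (w : Fin 3 → ℝ) :
    ch m (proj w) = Complex.exp (((2 * Real.pi * ∑ i, (m i : ℝ) * w i : ℝ) : ℂ) * Complex.I) := by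
  unfold ch proj
  have : ∀ i, fourier (m i) ((w i : ℝ) : UnitAddCircle) =
      Complex.exp (((2 * Real.pi * ((m i : ℝ) * w i) : ℝ) : ℂ) * Complex.I) := by
    intro i
    rw [fourier_coe_apply]
    congr 1
    push_cast
    ring
  simp_rw [this]
  rw [← Complex.exp_sum]
  congr 1
  rw [← Finset.sum_mul]
  congr 1
  push_cast
  rw [Finset.mul_sum]

/-- real representative of minimal absolute value -/
lemma exists_rep (u : T3) : ∃ r : Fin 3 → ℝ, proj r = u ∧ ∀ i, |r i| = ‖u i‖ := by
  have h : ∀ v : UnitAddCircle, ∃ r : ℝ, (r : UnitAddCircle) = v ∧ |r| = ‖v‖ := by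
    intro v
    induction v using QuotientAddGroup.induction_on with
    | H x =>
      refine ⟨x - round x, ?_, ?_⟩
      · rw [AddCircle.coe_sub]
        have : ((round x : ℤ) : ℝ) = (round x) • (1 : ℝ) := by simp
        have h2 : ((((round x : ℤ) : ℝ)) : UnitAddCircle) = 0 := by
          rw [this, AddCircle.coe_zsmul, AddCircle.coe_period, smul_zero]
        rw [h2, sub_zero]
      · exact (UnitAddCircle.norm_eq (x := x)).symm
  choose r hr hr2 using fun i => h (u i)
  exact ⟨r, funext hr, hr2⟩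

/-- the sum of the coordinate distances -/
noncomputable def sdist (x y : T3) : ℝ := ∑ i, ‖x i - y i‖

lemma sdist_nonneg (x y : T3) : 0 ≤ sdist x y := Finset.sum_nonneg fun _ _ => norm_nonneg _

lemma ch_lip (m : Fin 3 → ℤ) (M : ℝ) (hM : ∀ i, |(m i : ℝ)| ≤ M) (x y : T3) :
    ‖ch m x - ch m y‖ ≤ 2 * Real.pi * M * sdist x y := by
  obtain ⟨r, hr, hr2⟩ := exists_rep (x - y)
  have h1 : ch m x = ch m y * ch m (x - y) := by
    rw [← ch_add_arg]
    congr 1
    abel
  rw [h1, show ch m y * ch m (x - y) - ch m y = ch m y * (ch m (x - y) - 1) by ring, norm_mul,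
    norm_ch, one_mul, ← hr, ch_proj]
  have h2 : ∀ θ : ℝ, ‖Complex.exp ((θ : ℂ) * Complex.I) - 1‖ ≤ |θ| := by
    intro θ
    have := Real.norm_exp_I_mul_ofReal_sub_one_le (x := θ)
    rwa [mul_comm, Real.norm_eq_abs] at this
  refine (h2 _).trans ?_
  rw [abs_mul, abs_of_pos (by positivity : (0 : ℝ) < 2 * Real.pi), mul_assoc (2 * Real.pi)]
  refine mul_le_mul_of_nonneg_left ?_ (by positivity)
  refine (Finset.abs_sum_le_sum_abs _ _).trans ?_
  unfold sdist
  rw [Finset.mul_sum]
  refine Finset.sum_le_sum fun i _ => ?_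
  rw [abs_mul, hr2 i]
  exact mul_le_mul_of_nonneg_right (hM i) (norm_nonneg _)

lemma sdist_le (x y : T3) : sdist x y ≤ Real.sqrt 3 * tdist x y := by
  unfold sdist tdist
  rw [← Real.sqrt_mul (by norm_num)]
  refine Real.le_sqrt_of_sq_le ?_
  have := sq_sum_le_card_mul_sum_sq (s := (Finset.univ : Finset (Fin 3)))
    (f := fun i => ‖x i - y i‖)
  simpa using this

lemma tdist_nonneg (x y : T3) : 0 ≤ tdist x y := Real.sqrt_nonneg _

instance : IsProbabilityMeasure (volume : Measure UnitAddCircle) :=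
  ⟨by rw [AddCircle.measure_univ]; simp⟩

lemma integral_fourier_one (n : ℤ) :
    ∫ x : UnitAddCircle, (fourier n x : ℂ) = if n = 0 then 1 else 0 := by
  split_ifs with h
  · subst h
    simp
  · have h1 : ∫ x : UnitAddCircle, (fourier n (x + ((1 / 2 / n : ℝ) : UnitAddCircle)) : ℂ) =
        ∫ x : UnitAddCircle, (fourier n x : ℂ) := integral_add_right_eq_self _ _
    have h2 : ∀ x : UnitAddCircle, (fourier n (x + ((1 / 2 / n : ℝ) : UnitAddCircle)) : ℂ) =
        - fourier n x := by
      intro x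
      have := fourier_add_half_inv_index (T := 1) (n := n) h one_pos x
      rwa [show (1 : ℝ) / 2 / n = 1 / 2 / n by rfl] at this
    simp_rw [h2] at h1
    rw [integral_neg] at h1
    have h3 : (2 : ℂ) * ∫ x : UnitAddCircle, (fourier n x : ℂ) = 0 := by
      linear_combination -h1
    simpa using h3

lemma integral_ch (m : Fin 3 → ℤ) : ∫ x : T3, ch m x = if m = 0 then 1 else 0 := by
  unfold ch
  have h := MeasureTheory.integral_fintype_prod_volume_eq_prod (𝕜 := ℂ) (ι := Fin 3)
    (E := fun _ => UnitAddCircle) (fun i (x : UnitAddCircle) => (fourier (m i) x : ℂ))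
  rw [h]
  simp_rw [integral_fourier_one]
  split_ifs with h0
  · subst h0
    simp
  · obtain ⟨i, hi⟩ := Function.ne_iff.mp h0
    exact Finset.prod_eq_zero (Finset.mem_univ i) (if_neg hi)

end Pool.Agent.H211Torus
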