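import Pool.Agent.H211Torus.Fourier

set_option autoImplicit false

open MeasureTheory ProbabilityTheory
open scoped ENNReal NNReal ComplexConjugate

namespace Pool.Agent.H211Torus

lemma cont_int {E : Type*} [NormedAddCommGroup E] {f : T3 → E} (hf : Continuous f) :
    Integrable f (volume : Measure T3) :=
  hf.integrable_of_hasCompactSupport (HasCompactSupport.of_compactSpace f)

lemma sq_norm_eq (z : ℂ) : ((‖z‖ ^ 2 : ℝ) : ℂ) = z * conj z := by
  rw [Complex.mul_conj, Complex.normSq_eq_norm_sq]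

lemma parseval {A : Type*} [Fintype A] [DecidableEq A] (m : A → Fin 3 → ℤ)
    (hm : Function.Injective m) (c : A → ℂ) :
    ∫ y : T3, ‖∑ a, c a * ch (m a) y‖ ^ 2 = ∑ a, ‖c a‖ ^ 2 := by
  have h1 : ((∫ y : T3, ‖∑ a, c a * ch (m a) y‖ ^ 2 : ℝ) : ℂ) = ((∑ a, ‖c a‖ ^ 2 : ℝ) : ℂ) := by
    rw [← integral_complex_ofReal]
    have h2 : ∀ y : T3, (((‖∑ a, c a * ch (m a) y‖ ^ 2 : ℝ)) : ℂ) =
        ∑ a, ∑ b, c a * conj (c b) * ch (m a - m b) y := by
      intro y
      rw [sq_norm_eq, map_sum, Finset.sum_mul_sum]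
      refine Finset.sum_congr rfl fun a _ => Finset.sum_congr rfl fun b _ => ?_
      rw [sub_eq_add_neg, ch_add, ch_neg, map_mul]
      ring
    simp_rw [h2]
    rw [integral_finset_sum _ fun a _ => ?_]
    · rw [Complex.ofReal_sum]
      refine Finset.sum_congr rfl fun a _ => ?_
      rw [integral_finset_sum _ fun b _ => ?_]
      · rw [Finset.sum_eq_single a]
        · rw [integral_const_mul, integral_ch, sub_self, if_pos rfl, mul_one, sq_norm_eq]
        · intro b _ hb
          rw [integral_const_mul, integral_ch, if_neg, mul_zero]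
          intro h
          exact hb (hm (sub_eq_zero.mp h)).symm
        · intro h
          exact absurd (Finset.mem_univ a) h
      · exact cont_int (continuous_const.mul (continuous_ch _))
    · exact cont_int (continuous_finset_sum _ fun b _ => continuous_const.mul (continuous_ch _))
  exact_mod_cast h1

/-- index set of the frequencies -/
abbrev Lam (N : ℕ) := Fin 3 → Fin N

/-- frequencies in the box `[0, N)³` -/
def fr {N : ℕ} (a : Lam N) : Fin 3 → ℤ := fun i => ((a i : ℕ) : ℤ)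

lemma fr_inj {N : ℕ} : Function.Injective (fr (N := N)) := by
  intro a b h
  funext i
  have := congrFun h i
  simp only [fr] at this
  exact Fin.ext (by exact_mod_cast this)

/-- the shift `(2N, 0, 0)` -/
def sh (N : ℕ) : Fin 3 → ℤ := fun i => if i = 0 then 2 * (N : ℤ) else 0

/-- the trigonometric polynomial `∑ e(a·x)` -/
noncomputable def pp (N : ℕ) (x : T3) : ℂ := ∑ a : Lam N, ch (fr a) x

/-- Fejér kernel -/
noncomputable def FF (N : ℕ) (x : T3) : ℝ := ‖pp N x‖ ^ 2 / (N : ℝ) ^ 3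

/-- `cos (4π N x₁)` -/
noncomputable def GG (N : ℕ) (x : T3) : ℝ := (ch (sh N) x).re

/-- the kernel -/
noncomputable def KK (N : ℕ) (x : T3) : ℝ := FF N x * GG N x

lemma continuous_pp (N : ℕ) : Continuous (pp N) :=
  continuous_finset_sum _ fun _ _ => continuous_ch _

lemma continuous_FF (N : ℕ) : Continuous (FF N) :=
  ((continuous_pp N).norm.pow 2).div_const _

lemma continuous_GG (N : ℕ) : Continuous (GG N) :=
  Complex.continuous_re.comp (continuous_ch _)

lemma continuous_KK (N : ℕ) : Continuous (KK N) := (continuous_FF N).mul (continuous_GG N)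

lemma FF_nonneg (N : ℕ) (x : T3) : 0 ≤ FF N x := by
  unfold FF; positivity

lemma abs_GG (N : ℕ) (x : T3) : |GG N x| ≤ 1 := by
  unfold GG
  exact (Complex.abs_re_le_norm _).trans (norm_ch _ _).le

lemma abs_KK (N : ℕ) (x : T3) : |KK N x| ≤ FF N x := by
  unfold KK
  rw [abs_mul, abs_of_nonneg (FF_nonneg N x)]
  exact mul_le_of_le_one_right (FF_nonneg N x) (abs_GG N x)

lemma norm_pp (N : ℕ) (x : T3) : ‖pp N x‖ ≤ (N : ℝ) ^ 3 := by
  unfold pp
  refine (norm_sum_le _ _).trans ?_
  simp_rw [norm_ch]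
  simp

lemma FF_le (N : ℕ) (hN : 0 < N) (x : T3) : FF N x ≤ (N : ℝ) ^ 3 := by
  unfold FF
  rw [div_le_iff₀ (by positivity)]
  have := norm_pp N x
  calc ‖pp N x‖ ^ 2 ≤ ((N : ℝ) ^ 3) ^ 2 := pow_le_pow_left₀ (norm_nonneg _) this 2
    _ = _ := by ring

lemma pp_sub (N : ℕ) (x y : T3) : pp N (x - y) = ∑ a : Lam N, ch (fr a) x * ch (-fr a) y := by
  unfold pp
  refine Finset.sum_congr rfl fun a _ => ?_
  rw [ch_sub_arg, ch_neg]

lemma neg_fr_inj {N : ℕ} : Function.Injective fun a : Lam N => -fr a := by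
  intro a b h
  exact fr_inj (neg_injective h)

lemma card_Lam (N : ℕ) : (Fintype.card (Lam N) : ℝ) = (N : ℝ) ^ 3 := by
  simp

lemma integral_pp_sub (N : ℕ) (x : T3) : ∫ y : T3, ‖pp N (x - y)‖ ^ 2 = (N : ℝ) ^ 3 := by
  simp_rw [pp_sub]
  rw [parseval _ neg_fr_inj]
  simp_rw [norm_ch]
  simp

lemma integral_FF_sub (N : ℕ) (hN : 0 < N) (x : T3) : ∫ y : T3, FF N (x - y) = 1 := by
  unfold FF
  rw [integral_div, integral_pp_sub, div_self (by positivity)]

lemma integral_pp_diff (N : ℕ) (x x' : T3) :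
    ∫ y : T3, ‖pp N (x - y) - pp N (x' - y)‖ ^ 2 ≤
      (N : ℝ) ^ 3 * (2 * Real.pi * N * sdist x x') ^ 2 := by
  have h1 : ∀ y, pp N (x - y) - pp N (x' - y) =
      ∑ a : Lam N, (ch (fr a) x - ch (fr a) x') * ch (-fr a) y := by
    intro y
    rw [pp_sub, pp_sub, ← Finset.sum_sub_distrib]
    refine Finset.sum_congr rfl fun a _ => ?_
    ring
  simp_rw [h1]
  rw [parseval _ neg_fr_inj]
  calc ∑ a : Lam N, ‖ch (fr a) x - ch (fr a) x'‖ ^ 2
      ≤ ∑ _a : Lam N, (2 * Real.pi * N * sdist x x') ^ 2 := by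
        refine Finset.sum_le_sum fun a _ => pow_le_pow_left₀ (norm_nonneg _) ?_ 2
        refine ch_lip _ _ (fun i => ?_) _ _
        simp only [fr]
        rw [abs_of_nonneg (by positivity)]
        exact_mod_cast (a i).2.le
    _ = _ := by
        rw [Finset.sum_const, Finset.card_univ, nsmul_eq_mul, card_Lam]

lemma GG_diff (N : ℕ) (x x' y : T3) :
    |GG N (x - y) - GG N (x' - y)| ≤ 2 * Real.pi * (2 * N) * sdist x x' := by
  unfold GG
  rw [← Complex.sub_re]
  refine (Complex.abs_re_le_norm _).trans ?_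
  rw [ch_sub_arg, ch_sub_arg, ← sub_mul, norm_mul, RCLike.norm_conj, norm_ch, mul_one]
  refine ch_lip _ _ (fun i => ?_) _ _
  simp only [sh]
  split_ifs
  · push_cast
    rw [abs_of_nonneg (by positivity)]
  · simp

lemma sq_norm_diff (p q : ℂ) (δ : ℝ) (hδ : 0 < δ) :
    |‖p‖ ^ 2 - ‖q‖ ^ 2| ≤ 1 / (2 * δ) * ‖p - q‖ ^ 2 + δ * (‖p‖ ^ 2 + ‖q‖ ^ 2) := by
  have h1 : |‖p‖ ^ 2 - ‖q‖ ^ 2| ≤ ‖p - q‖ * (‖p‖ + ‖q‖) := by
    rw [sq_sub_sq, abs_mul, abs_of_nonneg (by positivity : (0 : ℝ) ≤ ‖p‖ + ‖q‖), mul_comm]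
    exact mul_le_mul_of_nonneg_right (abs_norm_sub_norm_le p q) (by positivity)
  refine h1.trans ?_
  have h2 : 1 / (2 * δ) * ‖p - q‖ ^ 2 + δ * (‖p‖ ^ 2 + ‖q‖ ^ 2) - ‖p - q‖ * (‖p‖ + ‖q‖) =
      1 / (2 * δ) * (‖p - q‖ - δ * (‖p‖ + ‖q‖)) ^ 2 + δ / 2 * (‖p‖ - ‖q‖) ^ 2 := by
    field_simp
    ring
  have h3 : 0 ≤ 1 / (2 * δ) * (‖p - q‖ - δ * (‖p‖ + ‖q‖)) ^ 2 + δ / 2 * (‖p‖ - ‖q‖) ^ 2 := by
    positivity
  linarith

lemma integral_KK_diff (N : ℕ) (hN : 0 < N) (x x' : T3) :
    ∫ y : T3, |KK N (x - y) - KK N (x' - y)| ≤ 8 * Real.pi * N * sdist x x' := by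
  by_cases hS : sdist x x' = 0
  · have hx : x = x' := by
      funext i
      have := (Finset.sum_eq_zero_iff_of_nonneg fun i _ => norm_nonneg _).mp hS i
        (Finset.mem_univ i)
      exact sub_eq_zero.mp (norm_eq_zero.mp this)
    subst hx
    simp [hS]
  · have hS' : 0 < sdist x x' := lt_of_le_of_ne (sdist_nonneg _ _) (Ne.symm hS)
    have hN' : (0 : ℝ) < N := by exact_mod_cast hN
    set E : ℝ := 2 * Real.pi * N * sdist x x' with hE
    have hE0 : 0 < E := by positivity
    have hpt : ∀ y : T3, |KK N (x - y) - KK N (x' - y)| ≤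
        FF N (x - y) * (2 * E) + (1 / (N : ℝ) ^ 3) *
          (1 / E * ‖pp N (x - y) - pp N (x' - y)‖ ^ 2 +
            E / 2 * (‖pp N (x - y)‖ ^ 2 + ‖pp N (x' - y)‖ ^ 2)) := by
      intro y
      have h1 : KK N (x - y) - KK N (x' - y) =
          FF N (x - y) * (GG N (x - y) - GG N (x' - y)) +
            (FF N (x - y) - FF N (x' - y)) * GG N (x' - y) := by
        unfold KK; ring
      rw [h1]
      refine (abs_add_le _ _).trans ?_
      refine add_le_add ?_ ?_
      · rw [abs_mul, abs_of_nonneg (FF_nonneg _ _)]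
        refine mul_le_mul_of_nonneg_left ?_ (FF_nonneg _ _)
        refine (GG_diff N x x' y).trans_eq ?_
        rw [hE]; ring
      · rw [abs_mul]
        refine (mul_le_of_le_one_right (abs_nonneg _) (abs_GG N _)).trans ?_
        unfold FF
        rw [← sub_div, abs_div, abs_of_pos (by positivity : (0 : ℝ) < (N : ℝ) ^ 3),
          div_eq_inv_mul, ← one_div]
        refine mul_le_mul_of_nonneg_left ?_ (by positivity)
        have := sq_norm_diff (pp N (x - y)) (pp N (x' - y)) (E / 2) (by positivity)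
        rwa [show 2 * (E / 2) = E by ring] at this
    have c1 : Continuous fun y : T3 => FF N (x - y) :=
      (continuous_FF N).comp (continuous_const.sub continuous_id)
    have c2 : Continuous fun y : T3 => ‖pp N (x - y) - pp N (x' - y)‖ ^ 2 :=
      (((continuous_pp N).comp (continuous_const.sub continuous_id)).sub
        ((continuous_pp N).comp (continuous_const.sub continuous_id))).norm.pow 2
    have c3 : ∀ x : T3, Continuous fun y : T3 => ‖pp N (x - y)‖ ^ 2 := fun x =>
      ((continuous_pp N).comp (continuous_const.sub continuous_id)).norm.pow 2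
    have c4 : ∀ x : T3, Continuous fun y : T3 => KK N (x - y) := fun x =>
      (continuous_KK N).comp (continuous_const.sub continuous_id)
    have h2 : ∫ y : T3, |KK N (x - y) - KK N (x' - y)| ≤ ∫ y : T3,
        (FF N (x - y) * (2 * E) + (1 / (N : ℝ) ^ 3) *
          (1 / E * ‖pp N (x - y) - pp N (x' - y)‖ ^ 2 +
            E / 2 * (‖pp N (x - y)‖ ^ 2 + ‖pp N (x' - y)‖ ^ 2))) := by
      refine integral_mono (cont_int ((c4 x).sub (c4 x')).abs) (cont_int ?_) hpt
      exact (c1.mul continuous_const).add (continuous_const.mul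
        ((continuous_const.mul c2).add (continuous_const.mul ((c3 x).add (c3 x')))))
    refine h2.trans ?_
    have i1 : Integrable (fun y : T3 => FF N (x - y) * (2 * E)) volume :=
      cont_int (c1.mul continuous_const)
    have i2 : Integrable (fun y : T3 => (1 / (N : ℝ) ^ 3) *
          (1 / E * ‖pp N (x - y) - pp N (x' - y)‖ ^ 2 +
            E / 2 * (‖pp N (x - y)‖ ^ 2 + ‖pp N (x' - y)‖ ^ 2))) volume :=
      cont_int (continuous_const.mul
        ((continuous_const.mul c2).add (continuous_const.mul ((c3 x).add (c3 x')))))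
    have i3 : Integrable (fun y : T3 => 1 / E * ‖pp N (x - y) - pp N (x' - y)‖ ^ 2) volume :=
      cont_int (continuous_const.mul c2)
    have i4 : Integrable (fun y : T3 =>
        E / 2 * (‖pp N (x - y)‖ ^ 2 + ‖pp N (x' - y)‖ ^ 2)) volume :=
      cont_int (continuous_const.mul ((c3 x).add (c3 x')))
    have i5 : ∀ x : T3, Integrable (fun y : T3 => ‖pp N (x - y)‖ ^ 2) volume :=
      fun x => cont_int (c3 x)
    rw [integral_add i1 i2, integral_mul_const, integral_FF_sub N hN, integral_const_mul,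
      integral_add i3 i4, integral_const_mul, integral_const_mul, integral_add (i5 x) (i5 x'),
      integral_pp_sub, integral_pp_sub]
    have h3 := integral_pp_diff N x x'
    rw [← hE] at h3
    have h4 : 1 / (N : ℝ) ^ 3 * (1 / E * ∫ y : T3, ‖pp N (x - y) - pp N (x' - y)‖ ^ 2) ≤ E := by
      calc 1 / (N : ℝ) ^ 3 * (1 / E * ∫ y : T3, ‖pp N (x - y) - pp N (x' - y)‖ ^ 2)
          ≤ 1 / (N : ℝ) ^ 3 * (1 / E * ((N : ℝ) ^ 3 * E ^ 2)) := by
            refine mul_le_mul_of_nonneg_left (mul_le_mul_of_nonneg_left h3 ?_) ?_ <;> positivity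
        _ = E := by field_simp
    have h5 : 1 / (N : ℝ) ^ 3 * (E / 2 * ((N : ℝ) ^ 3 + (N : ℝ) ^ 3)) = E := by
      field_simp
      ring
    rw [mul_add, h5]
    have h6 : 8 * Real.pi * N * sdist x x' = 4 * E := by rw [hE]; ring
    rw [h6]
    linarith

/-- the smoothed sign function -/
noncomputable def hh (N : ℕ) (s : T3 → ℝ) (x : T3) : ℝ := ∫ y : T3, KK N (x - y) * s y

lemma hh_int (N : ℕ) (s : T3 → ℝ) (hs : Measurable s) (hs1 : ∀ y, |s y| ≤ 1) (x : T3) :
    Integrable (fun y : T3 => KK N (x - y) * s y) volume := by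
  have c4 : Continuous fun y : T3 => KK N (x - y) :=
      (continuous_KK N).comp (continuous_const.sub continuous_id)
  refine (cont_int c4).mul_bdd (c := 1) hs.aestronglyMeasurable ?_
  exact Filter.Eventually.of_forall fun y => by simpa using hs1 y

lemma abs_hh (N : ℕ) (hN : 0 < N) (s : T3 → ℝ) (hs : Measurable s) (hs1 : ∀ y, |s y| ≤ 1)
    (x : T3) : |hh N s x| ≤ 1 := by
  unfold hh
  rw [← Real.norm_eq_abs]
  refine (norm_integral_le_integral_norm _).trans ?_
  refine le_trans ?_ (integral_FF_sub N hN x).le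
  refine integral_mono (hh_int N s hs hs1 x).norm
    (cont_int ((continuous_FF N).comp (continuous_const.sub continuous_id))) fun y => ?_
  show ‖KK N (x - y) * s y‖ ≤ FF N (x - y)
  rw [Real.norm_eq_abs, abs_mul]
  exact (mul_le_of_le_one_right (abs_nonneg _) (hs1 y)).trans (abs_KK _ _)

lemma hh_diff (N : ℕ) (hN : 0 < N) (s : T3 → ℝ) (hs : Measurable s) (hs1 : ∀ y, |s y| ≤ 1)
    (x x' : T3) : |hh N s x - hh N s x'| ≤ 8 * Real.pi * N * sdist x x' := by
  unfold hh
  rw [← integral_sub (hh_int N s hs hs1 x) (hh_int N s hs hs1 x'), ← Real.norm_eq_abs]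
  refine (norm_integral_le_integral_norm _).trans ?_
  refine le_trans ?_ (integral_KK_diff N hN x x')
  refine integral_mono ((hh_int N s hs hs1 x).sub (hh_int N s hs hs1 x')).norm
    (cont_int ?_) fun y => ?_
  · exact (((continuous_KK N).comp (continuous_const.sub continuous_id)).sub
      ((continuous_KK N).comp (continuous_const.sub continuous_id))).abs
  · show ‖KK N (x - y) * s y - KK N (x' - y) * s y‖ ≤ |KK N (x - y) - KK N (x' - y)|
    rw [Real.norm_eq_abs, ← sub_mul, abs_mul]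
    exact mul_le_of_le_one_right (abs_nonneg _) (hs1 y)

end Pool.Agent.H211Torus
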