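import Pool.Agent.H211Torus.Count
import Pool.Agent.H211Torus.BM
import Pool.Agent.H211Torus.Abstract

set_option autoImplicit false

open MeasureTheory ProbabilityTheory
open scoped ENNReal NNReal ComplexConjugate

namespace Pool.Agent.H211Torus

lemma q2_nonneg (m : Fin 3 → ℤ) : 0 ≤ q2 m := Finset.sum_nonneg fun _ _ => sq_nonneg _

lemma q2_neg (m : Fin 3 → ℤ) : q2 (-m) = q2 m := by
  unfold q2
  refine Finset.sum_congr rfl fun i _ => ?_
  simp

lemma q2_one (m : Fin 3 → ℤ) (hm : m ≠ 0) : 1 ≤ q2 m := by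
  obtain ⟨i, hi⟩ := Function.ne_iff.mp hm
  have h1 : (1 : ℝ) ≤ (m i : ℝ) ^ 2 := by
    have : (1 : ℤ) ≤ (m i) ^ 2 := by
      have := Int.one_le_abs hi
      rw [← sq_abs]
      nlinarith
    exact_mod_cast this
  exact h1.trans (Finset.single_le_sum (f := fun i => (m i : ℝ) ^ 2) (fun _ _ => sq_nonneg _)
    (Finset.mem_univ i))

lemma q2_phi_lower {N : ℕ} (ι : Idx N) : (N : ℝ) ^ 2 ≤ q2 (phi ι) := by
  obtain ⟨a, b, σ⟩ := ι
  have h1 : (N : ℤ) ^ 2 ≤ (phi (a, b, σ) 0) ^ 2 := by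
    have ha := (a 0).2
    have hb := (b 0).2
    rw [sq_le_sq, abs_of_nonneg (by positivity : (0 : ℤ) ≤ N)]
    cases σ
    · simp only [phi, Pi.add_apply, Pi.sub_apply, fr, sh, Pi.neg_apply, if_true,
        Bool.false_eq_true, if_false]
      rw [le_abs]
      right
      omega
    · simp only [phi, Pi.add_apply, Pi.sub_apply, fr, sh, if_true]
      rw [le_abs]
      left
      omega
  have h2 : (N : ℝ) ^ 2 ≤ ((phi (a, b, σ) 0 : ℤ) : ℝ) ^ 2 := by exact_mod_cast h1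
  exact h2.trans (Finset.single_le_sum (f := fun i => ((phi (a, b, σ) i : ℤ) : ℝ) ^ 2)
    (fun _ _ => sq_nonneg _) (Finset.mem_univ 0))

lemma q2_phi_upper {N : ℕ} (ι : Idx N) : q2 (phi ι) ≤ 11 * (N : ℝ) ^ 2 := by
  obtain ⟨a, b, σ⟩ := ι
  have key : ∀ (i : Fin 3) (C : ℤ), |phi (a, b, σ) i| ≤ C →
      ((phi (a, b, σ) i : ℤ) : ℝ) ^ 2 ≤ (C : ℝ) ^ 2 := by
    intro i C hC
    have : (phi (a, b, σ) i) ^ 2 ≤ C ^ 2 := by
      rw [sq_le_sq]
      exact hC.trans (le_abs_self C)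
    exact_mod_cast this
  have h0 := key 0 (3 * N) (by
    have ha := (a 0).2
    have hb := (b 0).2
    cases σ
    · simp only [phi, Pi.add_apply, Pi.sub_apply, fr, sh, Pi.neg_apply, if_true,
        Bool.false_eq_true, if_false]
      rw [abs_le]
      constructor <;> omega
    · simp only [phi, Pi.add_apply, Pi.sub_apply, fr, sh, if_true]
      rw [abs_le]
      constructor <;> omega)
  have h1 := key 1 N (by
    have ha := (a 1).2
    have hb := (b 1).2
    have h10 : (1 : Fin 3) ≠ 0 := by decide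
    cases σ
    · simp only [phi, Pi.add_apply, Pi.sub_apply, fr, sh, Pi.neg_apply,
        Bool.false_eq_true, if_false, h10]
      rw [abs_le]
      constructor <;> omega
    · simp only [phi, Pi.add_apply, Pi.sub_apply, fr, sh, if_true, h10, if_false]
      rw [abs_le]
      constructor <;> omega)
  have h2 := key 2 N (by
    have ha := (a 2).2
    have hb := (b 2).2
    have h20 : (2 : Fin 3) ≠ 0 := by decide
    cases σ
    · simp only [phi, Pi.add_apply, Pi.sub_apply, fr, sh, Pi.neg_apply,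
        Bool.false_eq_true, if_false, h20]
      rw [abs_le]
      constructor <;> omega
    · simp only [phi, Pi.add_apply, Pi.sub_apply, fr, sh, if_true, h20, if_false]
      rw [abs_le]
      constructor <;> omega)
  unfold q2
  rw [Fin.sum_univ_three]
  push_cast at h0 h1 h2
  nlinarith

variable {Ω : Type*} [MeasurableSpace Ω] {P : Measure Ω} {X : ℝ≥0 → Ω → Fin 3 → ℝ}

/-- the kernel along the path -/
noncomputable def kk (N : ℕ) (X : ℝ≥0 → Ω → Fin 3 → ℝ) (y : T3) (t : ℝ) (ω : Ω) : ℝ :=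
  KK N (Bt X t ω - y)

lemma kk_proc (h : IsStationaryBM P X) (N : ℕ) (hN : 0 < N) (y : T3) :
    KProc (kk N X y) ((N : ℝ) ^ 3) where
  meas := ((continuous_KK N).comp (continuous_id.sub continuous_const)).measurable.comp (Bt_meas h)
  cont ω := ((continuous_KK N).comp (continuous_id.sub continuous_const)).comp (Bt_cont h ω)
  bdd t ω := (abs_KK N _).trans (FF_le N hN _)

/-- character along the path -/
noncomputable def cy (X : ℝ≥0 → Ω → Fin 3 → ℝ) (y : T3) (m : Fin 3 → ℤ) (t : ℝ) (ω : Ω) : ℂ :=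
  ch m (Bt X t ω - y)

lemma cy_meas (h : IsStationaryBM P X) (y : T3) (m : Fin 3 → ℤ) (t : ℝ) :
    Measurable (cy X y m t) :=
  ((continuous_ch m).comp (continuous_id.sub continuous_const)).measurable.comp (Bt_meas_t h t)

lemma norm_cy (y : T3) (m : Fin 3 → ℤ) (t : ℝ) (ω : Ω) : ‖cy X y m t ω‖ = 1 := norm_ch _ _

lemma kk_expand (N : ℕ) (y : T3) (t : ℝ) (ω : Ω) :
    ((kk N X y t ω : ℝ) : ℂ) = 1 / (2 * (N : ℂ) ^ 3) * ∑ ι : Idx N, cy X y (phi ι) t ω :=
  KK_expand N _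

variable [IsProbabilityMeasure P]

lemma corr_k2 (h : IsStationaryBM P X) (N : ℕ) (hN : 0 < N) (y : T3) (s t : ℝ) (hs : 0 ≤ s)
    (hst : s ≤ t) :
    (N : ℝ) ^ 3 / 16 * Real.exp (-(22 * Real.pi ^ 2 * (N : ℝ) ^ 2) * (t - s)) ≤
      ∫ ω, kk N X y t ω * kk N X y s ω ∂P := by
  have hN' : (0 : ℝ) < N := by exact_mod_cast hN
  have h1 : ((∫ ω, kk N X y t ω * kk N X y s ω ∂P : ℝ) : ℂ) =
      (((1 / (2 * (N : ℝ) ^ 3)) ^ 2 * ∑ ι : Idx N, ∑ κ : Idx N, ind (phi ι + phi κ = 0) *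
        Real.exp (-(2 * Real.pi ^ 2) * q2 (phi ι) * (t - s)) : ℝ) : ℂ) := by
    rw [← integral_complex_ofReal]
    have h2 : ∀ ω, ((kk N X y t ω * kk N X y s ω : ℝ) : ℂ) = (1 / (2 * (N : ℂ) ^ 3)) ^ 2 *
        ∑ ι : Idx N, ∑ κ : Idx N, (cy X y (phi ι) t ω * cy X y (phi κ) s ω) := by
      intro ω
      rw [Complex.ofReal_mul, kk_expand, kk_expand, ← Finset.sum_mul_sum]
      ring
    simp_rw [h2]
    have hint : ∀ ι κ : Idx N, Integrable (fun ω => cy X y (phi ι) t ω * cy X y (phi κ) s ω) P := by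
      intro ι κ
      refine Integrable.of_bound ((cy_meas h y _ t).mul (cy_meas h y _ s)).aestronglyMeasurable 1
        (Filter.Eventually.of_forall fun ω => ?_)
      rw [norm_mul, norm_cy, norm_cy, mul_one]
    rw [integral_const_mul, integral_finset_sum _ fun ι _ => integrable_finset_sum _ fun κ _ =>
      hint ι κ]
    push_cast
    congr 1
    refine Finset.sum_congr rfl fun ι _ => ?_
    rw [integral_finset_sum _ fun κ _ => hint ι κ]
    refine Finset.sum_congr rfl fun κ _ => ?_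
    have := corr2 h y (phi ι) (phi κ) s t hs hst
    unfold cy
    rw [this]
    unfold ind
    split_ifs
    · push_cast
      ring
    · push_cast
      ring
  have h2 : ∫ ω, kk N X y t ω * kk N X y s ω ∂P = (1 / (2 * (N : ℝ) ^ 3)) ^ 2 *
      ∑ ι : Idx N, ∑ κ : Idx N, ind (phi ι + phi κ = 0) *
        Real.exp (-(2 * Real.pi ^ 2) * q2 (phi ι) * (t - s)) := by exact_mod_cast h1
  rw [h2]
  have h3 : (∑ ι : Idx N, ∑ κ : Idx N, ind (phi ι + phi κ = 0)) *
      Real.exp (-(22 * Real.pi ^ 2 * (N : ℝ) ^ 2) * (t - s)) ≤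
      ∑ ι : Idx N, ∑ κ : Idx N, ind (phi ι + phi κ = 0) *
        Real.exp (-(2 * Real.pi ^ 2) * q2 (phi ι) * (t - s)) := by
    rw [Finset.sum_mul]
    refine Finset.sum_le_sum fun ι _ => ?_
    rw [Finset.sum_mul]
    refine Finset.sum_le_sum fun κ _ => mul_le_mul_of_nonneg_left ?_ (ind_nonneg _)
    refine Real.exp_le_exp.mpr ?_
    have h4 := q2_phi_upper ι
    have h5 : 0 ≤ 2 * Real.pi ^ 2 * (t - s) := mul_nonneg (by positivity) (by linarith)
    nlinarith [mul_le_mul_of_nonneg_left h4 h5]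
  have h6 : (N : ℝ) ^ 3 / 16 = (1 / (2 * (N : ℝ) ^ 3)) ^ 2 * ((N : ℝ) ^ 9 / 4) := by
    field_simp
    ring
  rw [h6, mul_assoc]
  refine mul_le_mul_of_nonneg_left ?_ (by positivity)
  refine le_trans (mul_le_mul_of_nonneg_right (count2_lower N hN) (Real.exp_nonneg _)) h3

lemma prod4 {A : Type*} [Fintype A] (c : ℂ) (f g u v : A → ℂ) :
    (c * ∑ a, f a) * (c * ∑ a, g a) * (c * ∑ a, u a) * (c * ∑ a, v a) =
      c ^ 4 * ∑ a, ∑ b, ∑ d, ∑ e, f a * g b * u d * v e := by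
  have h : ∑ a, ∑ b, ∑ d, ∑ e, f a * g b * u d * v e =
      (∑ a, f a) * (∑ a, g a) * (∑ a, u a) * (∑ a, v a) := by
    simp_rw [← Finset.mul_sum, ← Finset.sum_mul, ← Finset.mul_sum, ← Finset.sum_mul]
    rw [Finset.sum_mul_sum Finset.univ Finset.univ f g]
  rw [h]
  ring

lemma corr_k4 (h : IsStationaryBM P X) (N : ℕ) (hN : 0 < N) (y : T3) (t1 t2 t3 t4 : ℝ)
    (h1 : 0 ≤ t1) (h12 : t1 ≤ t2) (h23 : t2 ≤ t3) (h34 : t3 ≤ t4) :
    |∫ ω, kk N X y t4 ω * kk N X y t3 ω * kk N X y t2 ω * kk N X y t1 ω ∂P| ≤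
      ((N : ℝ) ^ 6 + (N : ℝ) ^ 9 * Real.exp (-(2 * Real.pi ^ 2) * (t3 - t2))) *
        Real.exp (-(2 * Real.pi ^ 2 * (N : ℝ) ^ 2) * (t2 - t1)) *
        Real.exp (-(2 * Real.pi ^ 2 * (N : ℝ) ^ 2) * (t4 - t3)) := by
  have hN' : (0 : ℝ) < N := by exact_mod_cast hN
  have e0 : |∫ ω, kk N X y t4 ω * kk N X y t3 ω * kk N X y t2 ω * kk N X y t1 ω ∂P| =
      ‖∫ ω, ((kk N X y t4 ω * kk N X y t3 ω * kk N X y t2 ω * kk N X y t1 ω : ℝ) : ℂ) ∂P‖ := by
    rw [integral_complex_ofReal, Complex.norm_real, Real.norm_eq_abs]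
  rw [e0]
  have e1 : ∀ ω, ((kk N X y t4 ω * kk N X y t3 ω * kk N X y t2 ω * kk N X y t1 ω : ℝ) : ℂ) =
      (1 / (2 * (N : ℂ) ^ 3)) ^ 4 * ∑ κ : Idx N, ∑ ν : Idx N, ∑ μ : Idx N, ∑ ι : Idx N,
        cy X y (phi κ) t4 ω * cy X y (phi ν) t3 ω * cy X y (phi μ) t2 ω * cy X y (phi ι) t1 ω := by
    intro ω
    push_cast
    rw [kk_expand, kk_expand, kk_expand, kk_expand, prod4]
  simp_rw [e1]
  have hint : ∀ κ ν μ ι : Idx N, Integrable (fun ω => cy X y (phi κ) t4 ω * cy X y (phi ν) t3 ω *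
      cy X y (phi μ) t2 ω * cy X y (phi ι) t1 ω) P := by
    intro κ ν μ ι
    refine Integrable.of_bound ((((cy_meas h y _ t4).mul (cy_meas h y _ t3)).mul
      (cy_meas h y _ t2)).mul (cy_meas h y _ t1)).aestronglyMeasurable 1
        (Filter.Eventually.of_forall fun ω => ?_)
    rw [norm_mul, norm_mul, norm_mul, norm_cy, norm_cy, norm_cy, norm_cy]
    norm_num
  rw [integral_const_mul, norm_mul]
  have e2 : ‖(1 / (2 * (N : ℂ) ^ 3)) ^ 4‖ = 1 / (16 * (N : ℝ) ^ 12) := by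
    rw [norm_pow, norm_div, norm_mul, norm_pow]
    simp only [norm_one, Complex.norm_ofNat, Complex.norm_natCast]
    field_simp
    ring
  rw [e2]
  set E1 := Real.exp (-(2 * Real.pi ^ 2 * (N : ℝ) ^ 2) * (t2 - t1)) with hE1
  set E4 := Real.exp (-(2 * Real.pi ^ 2 * (N : ℝ) ^ 2) * (t4 - t3)) with hE4
  set E2 := Real.exp (-(2 * Real.pi ^ 2) * (t3 - t2)) with hE2
  have e3 : ‖∫ ω, ∑ κ : Idx N, ∑ ν : Idx N, ∑ μ : Idx N, ∑ ι : Idx N,
        cy X y (phi κ) t4 ω * cy X y (phi ν) t3 ω * cy X y (phi μ) t2 ω *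
          cy X y (phi ι) t1 ω ∂P‖ ≤
      ∑ κ : Idx N, ∑ ν : Idx N, ∑ μ : Idx N, ∑ ι : Idx N,
        (E4 * E1) * (ind (phi ν + phi κ = 0) * ind (phi ι + phi μ = 0) +
          ind (phi ι + phi μ + phi ν + phi κ = 0) * E2) := by
    rw [integral_finset_sum _ fun κ _ => integrable_finset_sum _ fun ν _ =>
      integrable_finset_sum _ fun μ _ => integrable_finset_sum _ fun ι _ => hint κ ν μ ι]
    refine (norm_sum_le _ _).trans (Finset.sum_le_sum fun κ _ => ?_)
    rw [integral_finset_sum _ fun ν _ =>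
      integrable_finset_sum _ fun μ _ => integrable_finset_sum _ fun ι _ => hint κ ν μ ι]
    refine (norm_sum_le _ _).trans (Finset.sum_le_sum fun ν _ => ?_)
    rw [integral_finset_sum _ fun μ _ => integrable_finset_sum _ fun ι _ => hint κ ν μ ι]
    refine (norm_sum_le _ _).trans (Finset.sum_le_sum fun μ _ => ?_)
    rw [integral_finset_sum _ fun ι _ => hint κ ν μ ι]
    refine (norm_sum_le _ _).trans (Finset.sum_le_sum fun ι _ => ?_)
    have h5 := corr4 h y (phi ι) (phi μ) (phi ν) (phi κ) t1 t2 t3 t4 h1 h12 h23 h34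
    unfold cy
    rw [h5]
    have hE10 : 0 < E1 := Real.exp_pos _
    have hE20 : 0 < E2 := Real.exp_pos _
    have hE40 : 0 < E4 := Real.exp_pos _
    split_ifs with h0
    · have hE4' : Real.exp (-(2 * Real.pi ^ 2) * q2 (phi κ) * (t4 - t3)) ≤ E4 := by
        refine Real.exp_le_exp.mpr ?_
        have := q2_phi_lower κ
        have h6 : 0 ≤ 2 * Real.pi ^ 2 * (t4 - t3) := mul_nonneg (by positivity) (by linarith)
        nlinarith [mul_le_mul_of_nonneg_left this h6]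
      have hE1' : Real.exp (-(2 * Real.pi ^ 2) * q2 (phi μ + phi ν + phi κ) * (t2 - t1)) ≤ E1 := by
        have h7 : phi μ + phi ν + phi κ = -phi ι := by
          rw [← add_eq_zero_iff_eq_neg, ← h0]
          abel
        rw [h7, q2_neg]
        refine Real.exp_le_exp.mpr ?_
        have := q2_phi_lower ι
        have h6 : 0 ≤ 2 * Real.pi ^ 2 * (t2 - t1) := mul_nonneg (by positivity) (by linarith)
        nlinarith [mul_le_mul_of_nonneg_left this h6]
      have hmid : Real.exp (-(2 * Real.pi ^ 2) * q2 (phi ν + phi κ) * (t3 - t2)) ≤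
          ind (phi ν + phi κ = 0) * ind (phi ι + phi μ = 0) +
          ind (phi ι + phi μ + phi ν + phi κ = 0) * E2 := by
        by_cases h8 : phi ν + phi κ = 0
        · have h9 : phi ι + phi μ = 0 := by
            rw [add_assoc, h8, add_zero] at h0
            exact h0
          have : ind (phi ι + phi μ + phi ν + phi κ = 0) = 1 := by simp [ind, h0]
          rw [this, h8]
          simp only [ind, h9, if_true, one_mul, mul_one]
          have h10 : q2 0 = 0 := by simp [q2]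
          rw [h10]
          simp only [mul_zero, zero_mul, Real.exp_zero]
          linarith
        · have : ind (phi ι + phi μ + phi ν + phi κ = 0) = 1 := by simp [ind, h0]
          rw [this, one_mul]
          have h10 : ind (phi ν + phi κ = 0) = 0 := by simp [ind, h8]
          rw [h10, zero_mul, zero_add]
          refine Real.exp_le_exp.mpr ?_
          have h11 := q2_one _ h8
          have h6 : 0 ≤ 2 * Real.pi ^ 2 * (t3 - t2) := mul_nonneg (by positivity) (by linarith)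
          nlinarith [mul_le_mul_of_nonneg_left h11 h6]
      calc Real.exp (-(2 * Real.pi ^ 2) * q2 (phi κ) * (t4 - t3)) *
            Real.exp (-(2 * Real.pi ^ 2) * q2 (phi ν + phi κ) * (t3 - t2)) *
            Real.exp (-(2 * Real.pi ^ 2) * q2 (phi μ + phi ν + phi κ) * (t2 - t1))
          ≤ E4 * (ind (phi ν + phi κ = 0) * ind (phi ι + phi μ = 0) +
          ind (phi ι + phi μ + phi ν + phi κ = 0) * E2) * E1 := by
            refine mul_le_mul (mul_le_mul hE4' hmid (Real.exp_nonneg _) hE40.le) hE1'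
              (Real.exp_nonneg _) ?_
            exact mul_nonneg hE40.le ((Real.exp_nonneg _).trans hmid)
        _ = _ := by ring
    · refine mul_nonneg (by positivity) ?_
      exact add_nonneg (mul_nonneg (ind_nonneg _) (ind_nonneg _))
        (mul_nonneg (ind_nonneg _) hE20.le)
  have e4 : ∑ κ : Idx N, ∑ ν : Idx N, ∑ μ : Idx N, ∑ ι : Idx N,
        (E4 * E1) * (ind (phi ν + phi κ = 0) * ind (phi ι + phi μ = 0) +
          ind (phi ι + phi μ + phi ν + phi κ = 0) * E2) ≤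
      (E4 * E1) * (16 * (N : ℝ) ^ 18 + 16 * (N : ℝ) ^ 21 * E2) := by
    simp_rw [← Finset.mul_sum, Finset.sum_add_distrib, ← Finset.sum_mul]
    refine mul_le_mul_of_nonneg_left ?_ (by positivity)
    refine add_le_add ?_ (mul_le_mul_of_nonneg_right (count4b N) (by positivity))
    exact count4a N
  calc 1 / (16 * (N : ℝ) ^ 12) * ‖∫ ω, ∑ κ : Idx N, ∑ ν : Idx N, ∑ μ : Idx N, ∑ ι : Idx N,
        cy X y (phi κ) t4 ω * cy X y (phi ν) t3 ω * cy X y (phi μ) t2 ω *
          cy X y (phi ι) t1 ω ∂P‖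
      ≤ 1 / (16 * (N : ℝ) ^ 12) * ((E4 * E1) * (16 * (N : ℝ) ^ 18 + 16 * (N : ℝ) ^ 21 * E2)) :=
        mul_le_mul_of_nonneg_left (e3.trans e4) (by positivity)
    _ = _ := by
      field_simp

/-- lower bound of the first absolute moment -/
lemma first_kk (h : IsStationaryBM P X) (N : ℕ) (hN : 0 < N) (y : T3) (T : ℝ) (hT : 1 ≤ T)
    (hNT : (N : ℝ) ^ 3 ≤ T) :
    Real.sqrt (N * T) / 600000 ≤ ∫ ω, |YY (kk N X y) T ω| ∂P := by
  have hN' : (1 : ℝ) ≤ N := by exact_mod_cast hN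
  have hpi1 : 9 < Real.pi ^ 2 := by
    have := Real.pi_gt_three
    nlinarith
  have hpi2 : Real.pi ^ 2 < 10 := by
    have := Real.pi_lt_d2
    have h0 := Real.pi_pos
    nlinarith
  have hk := kk_proc h N hN y
  -- second moment
  have s2 := second P hk ((N : ℝ) ^ 3 / 16) (22 * Real.pi ^ 2 * (N : ℝ) ^ 2) (by positivity)
    (by positivity) (fun s t hs hst => corr_k2 h N hN y s t hs hst) T (by linarith)
  have s4 := fourth P hk ((N : ℝ) ^ 6) ((N : ℝ) ^ 9) (2 * Real.pi ^ 2 * (N : ℝ) ^ 2)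
    (2 * Real.pi ^ 2) (by positivity) (by positivity) (by positivity) (by positivity)
    (fun t1 t2 t3 t4 h1 h12 h23 h34 => corr_k4 h N hN y t1 t2 t3 t4 h1 h12 h23 h34) T (by linarith)
  have hA : (N : ℝ) * T / 3520 ≤ ∫ ω, YY (kk N X y) T ω ^ 2 ∂P := by
    refine le_trans ?_ s2
    have h1 : 1 / (22 * Real.pi ^ 2 * (N : ℝ) ^ 2) ≤ T / 2 := by
      rw [div_le_iff₀ (by positivity)]
      have h5 : (1 : ℝ) ≤ (N : ℝ) ^ 2 := by nlinarith
      have h6 : (2 : ℝ) ≤ 22 * Real.pi ^ 2 * (N : ℝ) ^ 2 := by nlinarith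
      calc (1 : ℝ) ≤ T / 2 * 2 := by linarith
        _ ≤ T / 2 * (22 * Real.pi ^ 2 * (N : ℝ) ^ 2) :=
          mul_le_mul_of_nonneg_left h6 (by linarith)
    have h2 : 2 * ((N : ℝ) ^ 3 / 16) / (22 * Real.pi ^ 2 * (N : ℝ) ^ 2) =
        N / (176 * Real.pi ^ 2) := by
      field_simp
      ring
    rw [h2]
    have h3 : (N : ℝ) / 1760 ≤ N / (176 * Real.pi ^ 2) :=
      div_le_div_of_nonneg_left (by positivity) (by positivity) (by linarith)
    calc (N : ℝ) * T / 3520 = N / 1760 * (T / 2) := by ring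
      _ ≤ N / (176 * Real.pi ^ 2) * (T - 1 / (22 * Real.pi ^ 2 * (N : ℝ) ^ 2)) :=
        mul_le_mul h3 (by linarith) (by positivity) (by positivity)
  have hB : ∫ ω, YY (kk N X y) T ω ^ 4 ∂P ≤ ((N : ℝ) * T) ^ 2 := by
    refine s4.trans ?_
    have h1 : (N : ℝ) ^ 9 / (2 * Real.pi ^ 2) ≤ (N : ℝ) ^ 6 * T / 18 := by
      rw [div_le_div_iff₀ (by positivity) (by norm_num)]
      have h2 : (N : ℝ) ^ 9 ≤ (N : ℝ) ^ 6 * T := by
        calc (N : ℝ) ^ 9 = (N : ℝ) ^ 6 * (N : ℝ) ^ 3 := by ring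
          _ ≤ (N : ℝ) ^ 6 * T := mul_le_mul_of_nonneg_left hNT (by positivity)
      have h3 : 0 ≤ (N : ℝ) ^ 6 * T := by positivity
      nlinarith
    have h4 : 24 / (2 * Real.pi ^ 2 * (N : ℝ) ^ 2) ^ 2 ≤ 6 / (81 * (N : ℝ) ^ 4) := by
      rw [div_le_div_iff₀ (by positivity) (by positivity)]
      have h5 : (81 : ℝ) ≤ (Real.pi ^ 2) ^ 2 := by nlinarith
      have h6 : 0 ≤ (N : ℝ) ^ 4 := by positivity
      nlinarith [mul_le_mul_of_nonneg_right h5 h6]
    have hT0 : 0 ≤ T := by linarith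
    calc 24 / (2 * Real.pi ^ 2 * (N : ℝ) ^ 2) ^ 2 * T *
          ((N : ℝ) ^ 6 * T + (N : ℝ) ^ 9 / (2 * Real.pi ^ 2))
        ≤ 6 / (81 * (N : ℝ) ^ 4) * T * ((N : ℝ) ^ 6 * T + (N : ℝ) ^ 6 * T / 18) := by
          refine mul_le_mul (mul_le_mul_of_nonneg_right h4 hT0) (by linarith) (by positivity)
            (by positivity)
      _ = 6 / 81 * (19 / 18) * ((N : ℝ) * T) ^ 2 := by
          field_simp
          ring
      _ ≤ ((N : ℝ) * T) ^ 2 := by
          have : 0 ≤ ((N : ℝ) * T) ^ 2 := by positivity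
          nlinarith
  have hNT0 : 0 < (N : ℝ) * T := by positivity
  have hfin := first_abs P (YY (kk N X y) T) (YY_meas_t hk T) ((N : ℝ) ^ 3 * |T|)
    (fun ω => YY_bdd hk T ω) ((N : ℝ) * T / 3520) (((N : ℝ) * T) ^ 2) (by positivity)
    (by positivity) hA hB
  refine le_trans ?_ hfin
  set r := Real.sqrt ((N : ℝ) * T) with hr
  have hr0 : 0 < r := Real.sqrt_pos.mpr hNT0
  have hr2 : r ^ 2 = (N : ℝ) * T := Real.sq_sqrt hNT0.le
  have h7 : 2 * ((N : ℝ) * T) ^ 2 / ((N : ℝ) * T / 3520) = 7040 * ((N : ℝ) * T) := by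
    field_simp
    ring
  rw [h7]
  have h8 : Real.sqrt (7040 * ((N : ℝ) * T)) ≤ 84 * r := by
    refine Real.sqrt_le_iff.mpr ⟨by positivity, ?_⟩
    rw [mul_pow, hr2]
    nlinarith
  have h9 : 0 < Real.sqrt (7040 * ((N : ℝ) * T)) := Real.sqrt_pos.mpr (by positivity)
  rw [div_le_div_iff₀ (by norm_num) (by positivity)]
  calc r * (2 * Real.sqrt (7040 * ((N : ℝ) * T))) ≤ r * (2 * (84 * r)) := by
        refine mul_le_mul_of_nonneg_left ?_ hr0.le
        linarith
    _ = 168 * ((N : ℝ) * T) := by rw [← hr2]; ring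
    _ ≤ (N : ℝ) * T / 3520 * 600000 := by linarith

end Pool.Agent.H211Torus
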